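import Mathlib

/-!
# Large values of Dirichlet polynomials: definitions, large values and mean squares

The comparison of large values and mean squares is by helper93 (FixedSequences).
-/

set_option autoImplicit false

namespace Pool.Agent.Q144.SS

/-- `D(it) = ∑_{n ≤ N} a_n n^{-it}` -/
noncomputable def D (a : ℕ → ℂ) (N : ℕ) (t : ℝ) : ℂ :=
  ∑ n ∈ Finset.Icc 1 N, a n * (n : ℂ) ^ (-((t : ℂ) * Complex.I))

/-- `S` is a `1`-spaced family in `[0, T]`, `T ≥ 1`, `N ≥ 1` -/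
def Spaced (N : ℕ) (T : ℝ) (S : Finset ℝ) : Prop :=
  1 ≤ N ∧ 1 ≤ T ∧ (∀ t ∈ S, 0 ≤ t ∧ t ≤ T) ∧ ∀ t ∈ S, ∀ u ∈ S, t ≠ u → 1 ≤ |t - u|

/-- the large value bound of Q1 -/
def LargeValues (ε C : ℝ) (a : ℕ → ℂ) : Prop :=
  ∀ (N : ℕ) (T V : ℝ) (S : Finset ℝ), Spaced N T S → 0 < V → (N : ℝ) * T ^ ε ≤ V ^ 2 →
    (∀ t ∈ S, V ≤ ‖D a N t‖) → (S.card : ℝ) ≤ C * (N : ℝ) ^ 2 / V ^ 2 * T ^ ε

/-- Q1 -/
def Q1 : Prop := ∀ ε : ℝ, 0 < ε → ∃ C : ℝ, ∀ a : ℕ → ℂ, (∀ n, ‖a n‖ ≤ 1) → LargeValues ε C a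

/-- the mean square bound -/
def MeanSquares (ε C : ℝ) (a : ℕ → ℂ) : Prop :=
  ∀ (N : ℕ) (T : ℝ) (S : Finset ℝ), Spaced N T S →
    ∑ t ∈ S, ‖D a N t‖ ^ 2 ≤ C * (T ^ ε * ((N : ℝ) ^ 2 + (S.card : ℝ) * (N : ℝ)))

lemma ph_norm (n : ℕ) (hn : 1 ≤ n) (t : ℝ) : ‖(n : ℂ) ^ (-((t : ℂ) * Complex.I))‖ = 1 := by
  have h : (0 : ℝ) < n := by exact_mod_cast hn
  have e : (-((t : ℂ) * Complex.I)) = (((-t : ℝ) : ℂ) * Complex.I) := by push_cast; ring
  rw [← Complex.ofReal_natCast, Complex.norm_cpow_eq_rpow_re_of_pos h, e]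
  simp

lemma D_le (a : ℕ → ℂ) (ha : ∀ n, ‖a n‖ ≤ 1) (N : ℕ) (t : ℝ) : ‖D a N t‖ ≤ N := by
  unfold D
  refine (norm_sum_le _ _).trans ?_
  calc ∑ n ∈ Finset.Icc 1 N, ‖a n * (n : ℂ) ^ (-((t : ℂ) * Complex.I))‖ ≤ ∑ n ∈ Finset.Icc 1 N, (1 : ℝ) := by
        apply Finset.sum_le_sum
        intro n hn
        rw [norm_mul, ph_norm n (Finset.mem_Icc.1 hn).1, mul_one]
        exact ha n
    _ = N := by simp

lemma card_le {N : ℕ} {T : ℝ} {S : Finset ℝ} (h : Spaced N T S) : (S.card : ℝ) ≤ 2 * T := by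
  obtain ⟨-, hT, hS, hsp⟩ := h
  have hinj : Set.InjOn (fun t : ℝ => ⌊t⌋₊) (S : Set ℝ) := by
    intro t ht u hu htu
    by_contra hne
    have h1 := hsp t ht u hu hne
    have ht0 := (hS t ht).1
    have hu0 := (hS u hu).1
    have h2 := Nat.floor_le ht0
    have h3 := Nat.lt_floor_add_one t
    have h4 := Nat.floor_le hu0
    have h5 := Nat.lt_floor_add_one u
    have h6 : ((⌊t⌋₊ : ℕ) : ℝ) = ((⌊u⌋₊ : ℕ) : ℝ) := by exact_mod_cast htu
    have h7 : |t - u| < 1 := by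
      rw [abs_lt]
      constructor <;> linarith
    linarith
  have hsub : S.image (fun t : ℝ => ⌊t⌋₊) ⊆ Finset.range (⌊T⌋₊ + 1) := by
    intro k hk
    rw [Finset.mem_image] at hk
    obtain ⟨t, ht, rfl⟩ := hk
    rw [Finset.mem_range]
    exact Nat.lt_succ_of_le (Nat.floor_le_floor (hS t ht).2)
  have h1 := Finset.card_le_card hsub
  rw [Finset.card_image_of_injOn hinj, Finset.card_range] at h1
  have h2 : (S.card : ℝ) ≤ (⌊T⌋₊ : ℝ) + 1 := by exact_mod_cast h1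
  have h3 := Nat.floor_le (show 0 ≤ T by linarith)
  linarith

/-- splitting a value according to its size -/
lemma level {x N T η : ℝ} (hT : 1 ≤ T) (hN : 0 < N) (hη : 0 < η) (hx0 : 0 ≤ x)
    (hx : x ≤ N) (J : ℕ) :
    x ^ 2 ≤ ((N * T ^ (-(J * η))) ^ 2 + N * T ^ (3 * η)) + ∑ j ∈ Finset.range J,
      (if N * T ^ (-(((j : ℝ) + 1) * η)) ≤ x ∧ N * T ^ η ≤ (N * T ^ (-(((j : ℝ) + 1) * η))) ^ 2 then
        (N * T ^ (-((j : ℝ) * η))) ^ 2 else 0) := by
  have hT0 : 0 < T := by linarith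
  induction J with
  | zero =>
    simp only [Finset.range_zero, Finset.sum_empty, add_zero]
    have h1 : (N * T ^ (-(((0 : ℕ) : ℝ) * η))) ^ 2 = N ^ 2 := by simp
    rw [h1]
    have h2 : x ^ 2 ≤ N ^ 2 := pow_le_pow_left₀ hx0 hx 2
    have h3 : 0 ≤ N * T ^ (3 * η) := by positivity
    linarith
  | succ J ih =>
    rw [Finset.sum_range_succ]
    have hnn : 0 ≤ ∑ j ∈ Finset.range J,
      (if N * T ^ (-(((j : ℝ) + 1) * η)) ≤ x ∧ N * T ^ η ≤ (N * T ^ (-(((j : ℝ) + 1) * η))) ^ 2 then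
        (N * T ^ (-((j : ℝ) * η))) ^ 2 else 0) :=
      Finset.sum_nonneg fun j _ => by split_ifs <;> positivity
    have hlast : 0 ≤ (if N * T ^ (-(((J : ℝ) + 1) * η)) ≤ x ∧
        N * T ^ η ≤ (N * T ^ (-(((J : ℝ) + 1) * η))) ^ 2 then
        (N * T ^ (-((J : ℝ) * η))) ^ 2 else 0) := by split_ifs <;> positivity
    have hfl : 0 ≤ N * T ^ (3 * η) := by positivity
    have hsq : 0 ≤ (N * T ^ (-(((J + 1 : ℕ) : ℝ) * η))) ^ 2 := by positivity
    have hcast : (((J + 1 : ℕ) : ℝ) * η) = ((J : ℝ) + 1) * η := by push_cast; ring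
    rcases lt_or_ge x (N * T ^ (-(((J : ℝ) + 1) * η))) with h | h
    · -- below the last level
      have h1 : x ^ 2 ≤ (N * T ^ (-(((J + 1 : ℕ) : ℝ) * η))) ^ 2 := by
        rw [hcast]
        exact pow_le_pow_left₀ hx0 h.le 2
      linarith
    · rcases le_or_gt (x ^ 2) (N * T ^ (3 * η)) with h2 | h2
      · linarith
      · rcases le_or_gt x (N * T ^ (-((J : ℝ) * η))) with h3 | h3
        · -- the last level
          have h4 : N * T ^ (-((J : ℝ) * η)) = N * T ^ (-(((J : ℝ) + 1) * η)) * T ^ η := by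
            rw [mul_assoc, ← Real.rpow_add hT0]
            congr 2
            ring
          have h5 : N * T ^ (3 * η) ≤ (N * T ^ (-(((J : ℝ) + 1) * η))) ^ 2 * (T ^ η) ^ 2 := by
            rw [← mul_pow, ← h4]
            exact h2.le.trans (pow_le_pow_left₀ hx0 h3 2)
          have h6 : N * T ^ η ≤ (N * T ^ (-(((J : ℝ) + 1) * η))) ^ 2 := by
            have hp : 0 < (T ^ η) ^ 2 := by positivity
            rw [← mul_le_mul_iff_of_pos_right hp]
            refine le_trans (le_of_eq ?_) h5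
            rw [mul_assoc, ← Real.rpow_natCast (T ^ η) 2, ← Real.rpow_mul hT0.le,
              ← Real.rpow_add hT0]
            congr 2
            push_cast
            ring
          rw [if_pos ⟨h, h6⟩]
          have h7 : x ^ 2 ≤ (N * T ^ (-((J : ℝ) * η))) ^ 2 := pow_le_pow_left₀ hx0 h3 2
          linarith
        · -- above: use the induction hypothesis without its first term
          have h8 := ih
          -- the sum up to `J` is at least one of the squares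
          have hbig : x ^ 2 ≤ ∑ j ∈ Finset.range J,
              (if N * T ^ (-(((j : ℝ) + 1) * η)) ≤ x ∧
                N * T ^ η ≤ (N * T ^ (-(((j : ℝ) + 1) * η))) ^ 2 then
                (N * T ^ (-((j : ℝ) * η))) ^ 2 else 0) := by
            clear h8 ih hlast hsq hcast hnn
            -- find the level
            have hex : ∃ j : ℕ, j < J ∧ N * T ^ (-(((j : ℝ) + 1) * η)) < x ∧
                x ≤ N * T ^ (-((j : ℝ) * η)) := by
              induction J with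
              | zero =>
                simp only [Nat.cast_zero, zero_mul, neg_zero, Real.rpow_zero, mul_one] at h3
                linarith
              | succ J ihJ =>
                rcases le_or_gt x (N * T ^ (-((J : ℝ) * η))) with h9 | h9
                · refine ⟨J, Nat.lt_succ_self J, ?_, h9⟩
                  push_cast at h3
                  exact h3
                · have h10 : N * T ^ (-(((J : ℝ) + 1) * η)) ≤ x := by
                    refine le_trans ?_ h9.le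
                    apply mul_le_mul_of_nonneg_left _ hN.le
                    apply Real.rpow_le_rpow_of_exponent_le hT
                    nlinarith
                  obtain ⟨j, hj, hj2⟩ := ihJ h10 h9
                  exact ⟨j, Nat.lt_succ_of_lt hj, hj2⟩
            obtain ⟨j, hj, hj1, hj2⟩ := hex
            have h4 : N * T ^ (-((j : ℝ) * η)) = N * T ^ (-(((j : ℝ) + 1) * η)) * T ^ η := by
              rw [mul_assoc, ← Real.rpow_add hT0]
              congr 2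
              ring
            have h5 : N * T ^ (3 * η) ≤ (N * T ^ (-(((j : ℝ) + 1) * η))) ^ 2 * (T ^ η) ^ 2 := by
              rw [← mul_pow, ← h4]
              exact h2.le.trans (pow_le_pow_left₀ hx0 hj2 2)
            have h6 : N * T ^ η ≤ (N * T ^ (-(((j : ℝ) + 1) * η))) ^ 2 := by
              have hp : 0 < (T ^ η) ^ 2 := by positivity
              rw [← mul_le_mul_iff_of_pos_right hp]
              refine le_trans (le_of_eq ?_) h5
              rw [mul_assoc, ← Real.rpow_natCast (T ^ η) 2, ← Real.rpow_mul hT0.le,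
                ← Real.rpow_add hT0]
              congr 2
              push_cast
              ring
            have h7 : x ^ 2 ≤ (N * T ^ (-((j : ℝ) * η))) ^ 2 := pow_le_pow_left₀ hx0 hj2 2
            refine h7.trans ?_
            have h11 := Finset.single_le_sum (f := fun j : ℕ =>
              (if N * T ^ (-(((j : ℝ) + 1) * η)) ≤ x ∧
                N * T ^ η ≤ (N * T ^ (-(((j : ℝ) + 1) * η))) ^ 2 then
                (N * T ^ (-((j : ℝ) * η))) ^ 2 else 0)) (fun j _ => by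
                  split_ifs <;> positivity) (Finset.mem_range.2 hj)
            refine le_trans (le_of_eq ?_) h11
            rw [if_pos ⟨hj1.le, h6⟩]
          linarith

/-- large values give mean squares, for one or for all sequences -/
theorem ms_of_lv {B : Set (ℕ → ℂ)} (hB : ∀ a ∈ B, ∀ n, ‖a n‖ ≤ 1)
    (h : ∀ ε : ℝ, 0 < ε → ∃ C : ℝ, ∀ a ∈ B, LargeValues ε C a) :
    ∀ ε : ℝ, 0 < ε → ∃ C : ℝ, ∀ a ∈ B, MeanSquares ε C a := by
  intro ε hε
  obtain ⟨η, hη⟩ : ∃ η : ℝ, η = ε / 3 := ⟨_, rfl⟩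
  have hη0 : 0 < η := by rw [hη]; positivity
  obtain ⟨J, hJ⟩ : ∃ J : ℕ, 1 / 2 ≤ (J : ℝ) * η := by
    obtain ⟨J, hJ⟩ := exists_nat_ge (1 / 2 / η)
    exact ⟨J, by rwa [div_le_iff₀ hη0] at hJ⟩
  obtain ⟨C, hC⟩ := h η hη0
  refine ⟨2 + J * |C|, fun a ha N T S hS => ?_⟩
  have hcard := card_le hS
  have hS' := hS
  obtain ⟨hN, hT, hST, hsp⟩ := hS'
  have hT0 : 0 < T := by linarith
  have hN1 : (1 : ℝ) ≤ N := by exact_mod_cast hN
  have hN0 : (0 : ℝ) < N := by linarith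
  classical
  have hsum : ∑ t ∈ S, ‖D a N t‖ ^ 2 ≤ ∑ t ∈ S, ((((N : ℝ) * T ^ (-(J * η))) ^ 2 +
      N * T ^ (3 * η)) + ∑ j ∈ Finset.range J,
      (if (N : ℝ) * T ^ (-(((j : ℝ) + 1) * η)) ≤ ‖D a N t‖ ∧
        (N : ℝ) * T ^ η ≤ (N * T ^ (-(((j : ℝ) + 1) * η))) ^ 2 then
        ((N : ℝ) * T ^ (-((j : ℝ) * η))) ^ 2 else 0)) :=
    Finset.sum_le_sum fun t _ => level hT hN0 hη0 (norm_nonneg _) (D_le a (hB a ha) N t) J
  refine hsum.trans ?_
  rw [Finset.sum_add_distrib, Finset.sum_const, nsmul_eq_mul, Finset.sum_comm]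
  have hj : ∀ j ∈ Finset.range J, ∑ t ∈ S,
      (if (N : ℝ) * T ^ (-(((j : ℝ) + 1) * η)) ≤ ‖D a N t‖ ∧
        (N : ℝ) * T ^ η ≤ (N * T ^ (-(((j : ℝ) + 1) * η))) ^ 2 then
        ((N : ℝ) * T ^ (-((j : ℝ) * η))) ^ 2 else 0) ≤ |C| * (T ^ ε * (N : ℝ) ^ 2) := by
    intro j _
    by_cases hcond : (N : ℝ) * T ^ η ≤ (N * T ^ (-(((j : ℝ) + 1) * η))) ^ 2
    · simp only [hcond, and_true]
      rw [← Finset.sum_filter, Finset.sum_const, nsmul_eq_mul]
      have hV : 0 < (N : ℝ) * T ^ (-(((j : ℝ) + 1) * η)) := by positivity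
      have h1 := hC a ha N T ((N : ℝ) * T ^ (-(((j : ℝ) + 1) * η)))
        (S.filter fun t => (N : ℝ) * T ^ (-(((j : ℝ) + 1) * η)) ≤ ‖D a N t‖)
        ⟨hN, hT, fun t ht => hST t (Finset.mem_filter.1 ht).1,
          fun t ht u hu => hsp t (Finset.mem_filter.1 ht).1 u (Finset.mem_filter.1 hu).1⟩ hV hcond
        (fun t ht => (Finset.mem_filter.1 ht).2)
      have h4 : (N : ℝ) * T ^ (-((j : ℝ) * η)) = N * T ^ (-(((j : ℝ) + 1) * η)) * T ^ η := by
        rw [mul_assoc, ← Real.rpow_add hT0]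
        congr 2
        ring
      rw [h4]
      obtain ⟨V, hVdef⟩ : ∃ V : ℝ, V = (N : ℝ) * T ^ (-(((j : ℝ) + 1) * η)) := ⟨_, rfl⟩
      rw [← hVdef] at h1 hV ⊢
      have h5 : C * (N : ℝ) ^ 2 / V ^ 2 * T ^ η ≤ |C| * (N : ℝ) ^ 2 / V ^ 2 * T ^ η := by
        apply mul_le_mul_of_nonneg_right _ (by positivity)
        apply div_le_div_of_nonneg_right _ (by positivity)
        exact mul_le_mul_of_nonneg_right (le_abs_self C) (by positivity)
      calc _ ≤ (|C| * (N : ℝ) ^ 2 / V ^ 2 * T ^ η) * (V * T ^ η) ^ 2 :=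
            mul_le_mul_of_nonneg_right (h1.trans h5) (by positivity)
        _ = |C| * ((T ^ η) ^ 3 * (N : ℝ) ^ 2) := by
            field_simp
        _ = |C| * (T ^ ε * (N : ℝ) ^ 2) := by
            have : (T ^ η) ^ 3 = T ^ ε := by
              rw [← Real.rpow_natCast (T ^ η) 3, ← Real.rpow_mul hT0.le]
              congr 1
              rw [hη]
              push_cast
              ring
            rw [this]
    · simp only [hcond, and_false, if_false, Finset.sum_const_zero]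
      positivity
  have hsum2 := Finset.sum_le_sum hj
  rw [Finset.sum_const, Finset.card_range, nsmul_eq_mul] at hsum2
  have hε3 : T ^ (3 * η) = T ^ ε := by rw [hη]; congr 1; ring
  have hfirst : ((N : ℝ) * T ^ (-(J * η))) ^ 2 ≤ (N : ℝ) ^ 2 / T := by
    have h1 : T ^ (-(J * η)) ≤ T ^ (-(1 / 2) : ℝ) :=
      Real.rpow_le_rpow_of_exponent_le hT (by linarith)
    have h2 : (T ^ (-(1 / 2) : ℝ)) ^ 2 = 1 / T := by
      rw [← Real.rpow_natCast, ← Real.rpow_mul hT0.le]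
      have : (-(1 / 2) : ℝ) * ((2 : ℕ) : ℝ) = -1 := by push_cast; ring
      rw [this, Real.rpow_neg_one, one_div]
    rw [mul_pow]
    have h3 : (T ^ (-(J * η))) ^ 2 ≤ 1 / T := by
      rw [← h2]
      exact pow_le_pow_left₀ (by positivity) h1 2
    calc (N : ℝ) ^ 2 * (T ^ (-(J * η))) ^ 2 ≤ (N : ℝ) ^ 2 * (1 / T) :=
          mul_le_mul_of_nonneg_left h3 (by positivity)
      _ = _ := by ring
  have hTe : 1 ≤ T ^ ε := Real.one_le_rpow hT hε.le
  have hc0 : (0 : ℝ) ≤ S.card := Nat.cast_nonneg _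
  have hA : (S.card : ℝ) * (((N : ℝ) * T ^ (-(J * η))) ^ 2 + N * T ^ (3 * η)) ≤
      2 * (T ^ ε * (N : ℝ) ^ 2) + T ^ ε * ((S.card : ℝ) * N) := by
    rw [hε3]
    have h1 : (S.card : ℝ) * ((N : ℝ) * T ^ (-(J * η))) ^ 2 ≤ 2 * (T ^ ε * (N : ℝ) ^ 2) := by
      calc (S.card : ℝ) * ((N : ℝ) * T ^ (-(J * η))) ^ 2 ≤ (2 * T) * ((N : ℝ) ^ 2 / T) :=
            mul_le_mul hcard hfirst (by positivity) (by positivity)
        _ = 2 * (1 * (N : ℝ) ^ 2) := by field_simp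
        _ ≤ 2 * (T ^ ε * (N : ℝ) ^ 2) := by
            apply mul_le_mul_of_nonneg_left _ (by norm_num)
            exact mul_le_mul_of_nonneg_right hTe (by positivity)
    linarith
  have hB2 : (J : ℝ) * (|C| * (T ^ ε * (N : ℝ) ^ 2)) = J * |C| * (T ^ ε * (N : ℝ) ^ 2) := by ring
  rw [hB2] at hsum2
  have hJC : 0 ≤ (J : ℝ) * |C| := by positivity
  have hX : 0 ≤ T ^ ε * ((S.card : ℝ) * N) := by positivity
  calc _ ≤ (2 * (T ^ ε * (N : ℝ) ^ 2) + T ^ ε * ((S.card : ℝ) * N)) +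
        J * |C| * (T ^ ε * (N : ℝ) ^ 2) := add_le_add hA hsum2
    _ ≤ (2 + J * |C|) * (T ^ ε * (N : ℝ) ^ 2) + (2 + J * |C|) * (T ^ ε * ((S.card : ℝ) * N)) := by
        nlinarith [mul_nonneg hJC hX]
    _ = _ := by ring

/-- mean squares give large values, for one or for all sequences -/
theorem lv_of_ms {B : Set (ℕ → ℂ)} (hB : ∀ a ∈ B, ∀ n, ‖a n‖ ≤ 1)
    (h : ∀ ε : ℝ, 0 < ε → ∃ C : ℝ, ∀ a ∈ B, MeanSquares ε C a) :
    ∀ ε : ℝ, 0 < ε → ∃ C : ℝ, ∀ a ∈ B, LargeValues ε C a := by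
  intro ε hε
  obtain ⟨C0, hC0⟩ := h (ε / 2) (by positivity)
  obtain ⟨C, hCdef⟩ : ∃ C : ℝ, C = max C0 1 := ⟨_, rfl⟩
  have hC1 : 1 ≤ C := by rw [hCdef]; exact le_max_right _ _
  obtain ⟨T0, hT0def⟩ : ∃ T0 : ℝ, T0 = (2 * C) ^ (2 / ε) := ⟨_, rfl⟩
  have hT00 : 0 < T0 := by rw [hT0def]; positivity
  refine ⟨2 * C + 2 * T0, fun a ha N T V S hS hV hNV hlv => ?_⟩
  have hcard := card_le hS
  have hS' := hS
  obtain ⟨hN, hT, hST, hsp⟩ := hS'
  have hTp : 0 < T := by linarith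
  have hN1 : (1 : ℝ) ≤ N := by exact_mod_cast hN
  have hN0 : (0 : ℝ) < N := by linarith
  have hc0 : (0 : ℝ) ≤ S.card := Nat.cast_nonneg _
  have hV2 : 0 < V ^ 2 := by positivity
  have hTe : 1 ≤ T ^ ε := Real.one_le_rpow hT hε.le
  rcases le_or_gt T0 T with hlarge | hsmall
  · have h1 : (S.card : ℝ) * V ^ 2 ≤ ∑ t ∈ S, ‖D a N t‖ ^ 2 := by
      rw [← nsmul_eq_mul]
      apply Finset.card_nsmul_le_sum
      intro t ht
      exact pow_le_pow_left₀ hV.le (hlv t ht) 2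
    have h2 := hC0 a ha N T S hS
    have h3 : C0 * (T ^ (ε / 2) * ((N : ℝ) ^ 2 + (S.card : ℝ) * (N : ℝ))) ≤
        C * (T ^ (ε / 2) * ((N : ℝ) ^ 2 + (S.card : ℝ) * (N : ℝ))) := by
      apply mul_le_mul_of_nonneg_right _ (by positivity)
      rw [hCdef]; exact le_max_left _ _
    have h4 : 2 * C ≤ T ^ (ε / 2) := by
      calc 2 * C = T0 ^ (ε / 2) := by
            rw [hT0def, ← Real.rpow_mul (by positivity)]
            have : 2 / ε * (ε / 2) = 1 := by field_simp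
            rw [this, Real.rpow_one]
        _ ≤ _ := Real.rpow_le_rpow hT00.le hlarge (by positivity)
    have he : T ^ ε = T ^ (ε / 2) * T ^ (ε / 2) := by
      rw [← Real.rpow_add hTp]; congr 1; ring
    have h5 : 2 * (C * T ^ (ε / 2) * N) ≤ V ^ 2 := by
      refine le_trans ?_ hNV
      rw [he]
      have h6 : 2 * C * T ^ (ε / 2) ≤ T ^ (ε / 2) * T ^ (ε / 2) :=
        mul_le_mul_of_nonneg_right h4 (by positivity)
      nlinarith
    have h6 : (S.card : ℝ) * V ^ 2 ≤ 2 * C * (T ^ (ε / 2) * (N : ℝ) ^ 2) := by nlinarith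
    have h7 : T ^ (ε / 2) ≤ T ^ ε := Real.rpow_le_rpow_of_exponent_le hT (by linarith)
    have h8 : (S.card : ℝ) ≤ 2 * C * (N : ℝ) ^ 2 / V ^ 2 * T ^ ε := by
      rw [div_mul_eq_mul_div, le_div_iff₀ hV2]
      refine h6.trans ?_
      have := mul_le_mul_of_nonneg_left h7 (show 0 ≤ 2 * C * (N : ℝ) ^ 2 by positivity)
      linarith
    refine h8.trans ?_
    apply mul_le_mul_of_nonneg_right _ (by positivity)
    apply div_le_div_of_nonneg_right _ hV2.le
    apply mul_le_mul_of_nonneg_right _ (by positivity)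
    linarith
  · rcases S.eq_empty_or_nonempty with hem | ⟨t, ht⟩
    · rw [hem]
      simp only [Finset.card_empty, Nat.cast_zero]
      positivity
    · have hVN : V ≤ N := (hlv t ht).trans (D_le a (hB a ha) N t)
      have h1 : 1 ≤ (N : ℝ) ^ 2 / V ^ 2 := by
        rw [le_div_iff₀ hV2, one_mul]
        exact pow_le_pow_left₀ hV.le hVN 2
      have h2 : 1 ≤ (N : ℝ) ^ 2 / V ^ 2 * T ^ ε := by nlinarith
      calc (S.card : ℝ) ≤ 2 * T0 * 1 := by linarith
        _ ≤ (2 * C + 2 * T0) * ((N : ℝ) ^ 2 / V ^ 2 * T ^ ε) :=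
            mul_le_mul (by linarith) h2 (by norm_num) (by positivity)
        _ = _ := by ring


theorem q1_iff : Q1 ↔ ∀ ε : ℝ, 0 < ε → ∃ C : ℝ, ∀ a : ℕ → ℂ, (∀ n, ‖a n‖ ≤ 1) →
    MeanSquares ε C a :=
  ⟨fun h => ms_of_lv (B := {a | ∀ n, ‖a n‖ ≤ 1}) (fun _ ha => ha) h,
    fun h => lv_of_ms (B := {a | ∀ n, ‖a n‖ ≤ 1}) (fun _ ha => ha) h⟩

end Pool.Agent.Q144.SS
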