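import Pool.Agent.Q144.SS.Base

/-!
# Mean squares of Dirichlet polynomials much longer than the range of the points
-/

set_option autoImplicit false

namespace Pool.Agent.Q144.SS

open Finset

/-- `n^{-iu}` -/
noncomputable def ph (u : ℝ) (n : ℕ) : ℂ := (n : ℂ) ^ (-((u : ℂ) * Complex.I))

lemma ph_eq (u : ℝ) {n : ℕ} (hn : 1 ≤ n) : ph u n = Complex.exp (-(Complex.I * (u * Real.log n : ℝ))) := by
  have hn0 : (n : ℂ) ≠ 0 := by exact_mod_cast (by omega : n ≠ 0)
  unfold ph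
  rw [Complex.cpow_def_of_ne_zero hn0, ← Complex.natCast_log]
  congr 1
  push_cast
  ring

lemma ph_one (u : ℝ) : ph u 1 = 1 := by
  rw [ph_eq u le_rfl]; simp

/-- the primitive of `x^{-iu}` -/
noncomputable def pr (u : ℝ) (x : ℝ) : ℂ :=
  x * Complex.exp (-(Complex.I * (u * Real.log x : ℝ))) / (1 - Complex.I * u)

lemma pr_norm (u : ℝ) {x : ℝ} (hx : 0 ≤ x) : ‖pr u x‖ ≤ x / max 1 |u| := by
  unfold pr
  rw [norm_div, norm_mul, Complex.norm_real, Real.norm_of_nonneg hx]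
  have h1 : ‖Complex.exp (-(Complex.I * (u * Real.log x : ℝ)))‖ = 1 := by
    rw [show -(Complex.I * ((u * Real.log x : ℝ) : ℂ)) = ((-(u * Real.log x) : ℝ) : ℂ) * Complex.I by
      push_cast; ring]
    exact Complex.norm_exp_ofReal_mul_I _
  rw [h1, mul_one]
  apply div_le_div_of_nonneg_left hx (by positivity)
  apply max_le
  · have := Complex.abs_re_le_norm (1 - Complex.I * u)
    simpa using this
  · have := Complex.abs_im_le_norm (1 - Complex.I * u)
    simpa using this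

lemma den_ne (u : ℝ) : (1 - Complex.I * u : ℂ) ≠ 0 := by
  intro h
  have := congrArg Complex.re h
  simp at this

lemma pr_deriv (u : ℝ) {x : ℝ} (hx : 0 < x) :
    HasDerivAt (pr u) (Complex.exp (-(Complex.I * (u * Real.log x : ℝ)))) x := by
  have h1 : HasDerivAt (fun x : ℝ => (x : ℂ)) 1 x := (hasDerivAt_id (x : ℂ)).comp_ofReal
  have h2 : HasDerivAt (fun x : ℝ => ((u * Real.log x : ℝ) : ℂ)) ((u * x⁻¹ : ℝ) : ℂ) x :=
    ((Real.hasDerivAt_log hx.ne').const_mul u).ofReal_comp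
  have h3 : HasDerivAt (fun x : ℝ => Complex.exp (-(Complex.I * ((u * Real.log x : ℝ) : ℂ))))
      (Complex.exp (-(Complex.I * ((u * Real.log x : ℝ) : ℂ))) * (-(Complex.I * ((u * x⁻¹ : ℝ) : ℂ)))) x :=
    (h2.const_mul Complex.I).neg.cexp
  have h4 := (h1.mul h3).div_const (1 - Complex.I * u)
  refine HasDerivAt.congr_deriv h4 ?_
  have hx' : (x : ℂ) ≠ 0 := by exact_mod_cast hx.ne'
  rw [div_eq_iff (den_ne u)]
  push_cast
  field_simp
  ring

lemma exp_diff (a b : ℝ) : ‖Complex.exp (-(Complex.I * (a : ℝ))) - Complex.exp (-(Complex.I * (b : ℝ)))‖ ≤ |a - b| := by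
  have h1 : Complex.exp (-(Complex.I * (a : ℝ))) - Complex.exp (-(Complex.I * (b : ℝ))) =
      Complex.exp (-(Complex.I * (b : ℝ))) * (Complex.exp (Complex.I * ((-(a - b) : ℝ) : ℂ)) - 1) := by
    rw [mul_sub, ← Complex.exp_add, mul_one]
    congr 2
    push_cast
    ring
  have h2 : ‖Complex.exp (-(Complex.I * (b : ℝ)))‖ = 1 := by
    rw [show -(Complex.I * ((b : ℝ) : ℂ)) = ((-b : ℝ) : ℂ) * Complex.I by push_cast; ring]
    exact Complex.norm_exp_ofReal_mul_I _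
  rw [h1, norm_mul, h2, one_mul]
  have := Real.norm_exp_I_mul_ofReal_sub_one_le (x := -(a - b))
  rw [Real.norm_eq_abs, abs_neg] at this
  exact this

lemma step (u : ℝ) (n : ℕ) (hn : 1 ≤ n) :
    ‖ph u (n + 1) - (pr u (n + 1 : ℕ) - pr u n)‖ ≤ |u| / n := by
  have hn0 : (0 : ℝ) < n := by exact_mod_cast hn
  set c : ℂ := Complex.exp (-(Complex.I * (u * Real.log ((n + 1 : ℕ) : ℝ) : ℝ))) with hc
  have key : ‖(pr u (n + 1 : ℕ) - c * ((n + 1 : ℕ) : ℝ)) - (pr u n - c * (n : ℝ))‖ ≤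
      (|u| / n) * ‖(((n + 1 : ℕ) : ℝ) - (n : ℝ))‖ := by
    refine Convex.norm_image_sub_le_of_norm_hasDerivWithin_le (f := fun x : ℝ => pr u x - c * (x : ℂ))
      (f' := fun x => Complex.exp (-(Complex.I * (u * Real.log x : ℝ))) - c) (s := Set.Icc (n : ℝ) ((n + 1 : ℕ) : ℝ)) ?_ ?_
      (convex_Icc _ _) ?_ ?_
    · intro x hx
      have hx0 : 0 < x := lt_of_lt_of_le hn0 hx.1
      have h1 : HasDerivAt (fun x : ℝ => c * (x : ℂ)) (c * 1) x := ((hasDerivAt_id (x : ℂ)).comp_ofReal).const_mul c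
      have := (pr_deriv u hx0).sub h1
      rw [mul_one] at this
      exact this.hasDerivWithinAt
    · intro x hx
      have hx0 : 0 < x := lt_of_lt_of_le hn0 hx.1
      refine (exp_diff _ _).trans ?_
      rw [← mul_sub, abs_mul, div_eq_mul_one_div]
      apply mul_le_mul_of_nonneg_left _ (abs_nonneg _)
      have h1 : Real.log x ≤ Real.log ((n + 1 : ℕ) : ℝ) := Real.log_le_log hx0 hx.2
      have h2 : Real.log n ≤ Real.log x := Real.log_le_log hn0 hx.1
      rw [abs_of_nonpos (by linarith)]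
      have h3 : Real.log ((n + 1 : ℕ) : ℝ) - Real.log n ≤ 1 / n := by
        rw [← Real.log_div (by positivity) (by positivity)]
        have h4 : ((n + 1 : ℕ) : ℝ) / n = 1 + 1 / n := by push_cast; field_simp
        rw [h4]
        have := Real.log_le_sub_one_of_pos (show 0 < 1 + 1 / (n : ℝ) by positivity)
        linarith
      linarith
    · exact ⟨le_rfl, by push_cast; linarith⟩
    · exact ⟨by push_cast; linarith, le_rfl⟩
  have e : ph u (n + 1) = c := ph_eq u (by omega)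
  rw [e]
  have h1 : ‖(((n + 1 : ℕ) : ℝ) - (n : ℝ))‖ = 1 := by push_cast; simp
  rw [h1, mul_one] at key
  refine le_trans (le_of_eq ?_) key
  rw [← norm_neg]
  congr 1
  push_cast
  ring

/-- the kernel -/
theorem kernel (u : ℝ) (N : ℕ) (hN : 1 ≤ N) :
    ‖∑ n ∈ Icc 1 N, ph u n‖ ≤ N / max 1 |u| + 2 + |u| * (1 + Real.log N) := by
  have key : ∀ N : ℕ, 1 ≤ N → ‖∑ n ∈ Icc 1 N, ph u n - pr u N‖ ≤ 2 + |u| * ∑ k ∈ Ico 1 N, (1 : ℝ) / k := by
    intro N hN
    induction N, hN using Nat.le_induction with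
    | base =>
      simp only [Icc_self, sum_singleton, Ico_self, sum_empty, mul_zero, add_zero]
      rw [ph_one]
      have h1 := pr_norm u (x := ((1 : ℕ) : ℝ)) (by simp)
      have h2 : ((1 : ℕ) : ℝ) / max 1 |u| ≤ 1 := by
        rw [div_le_one (by positivity)]; push_cast; exact le_max_left _ _
      calc _ ≤ ‖(1 : ℂ)‖ + ‖pr u (1 : ℕ)‖ := norm_sub_le _ _
        _ ≤ 1 + 1 := by rw [norm_one]; exact add_le_add le_rfl (h1.trans h2)
        _ = 2 := by norm_num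
    | succ N hN ih =>
      rw [sum_Icc_succ_top (by omega)]
      rw [sum_Ico_succ_top hN]
      have h1 := step u N hN
      have e : ∑ n ∈ Icc 1 N, ph u n + ph u (N + 1) - pr u (N + 1 : ℕ) =
          (ph u (N + 1) - (pr u (N + 1 : ℕ) - pr u N)) + (∑ n ∈ Icc 1 N, ph u n - pr u N) := by ring
      rw [e]
      refine (norm_add_le _ _).trans ?_
      have : |u| * (∑ k ∈ Ico 1 N, (1 : ℝ) / k + 1 / N) = |u| / N + |u| * ∑ k ∈ Ico 1 N, (1 : ℝ) / k := by ring
      rw [this]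
      linarith
  have h1 := key N hN
  have h2 : ∑ k ∈ Ico 1 N, (1 : ℝ) / k ≤ 1 + Real.log N := by
    have h3 := harmonic_le_one_add_log N
    refine le_trans ?_ h3
    unfold harmonic
    push_cast
    rw [range_eq_Ico, sum_Ico_eq_sum_range, sum_Ico_eq_sum_range]
    simp only [Nat.sub_zero]
    calc ∑ k ∈ range (N - 1), (1 : ℝ) / ((1 + k : ℕ) : ℝ) ≤ ∑ k ∈ range N, (1 : ℝ) / ((1 + k : ℕ) : ℝ) :=
          sum_le_sum_of_subset_of_nonneg (range_subset_range.2 (by omega)) fun _ _ _ => by positivity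
      _ = _ := by
          apply sum_congr rfl
          intro k _
          push_cast
          rw [one_div]
          ring_nf
  have h3 := pr_norm u (x := (N : ℝ)) (by positivity)
  have h4 := mul_le_mul_of_nonneg_left h2 (abs_nonneg u)
  calc ‖∑ n ∈ Icc 1 N, ph u n‖ = ‖(∑ n ∈ Icc 1 N, ph u n - pr u N) + pr u N‖ := by congr 1; ring
    _ ≤ _ := norm_add_le _ _
    _ ≤ _ := by linarith

lemma harm (m : ℕ) : ∑ l ∈ Ico 1 (m + 1), (1 : ℝ) / l ≤ 1 + Real.log ((m + 1 : ℕ) : ℝ) := by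
  have h3 := harmonic_le_one_add_log (m + 1)
  refine le_trans ?_ h3
  unfold harmonic
  push_cast
  rw [range_eq_Ico, sum_Ico_eq_sum_range, sum_Ico_eq_sum_range]
  simp only [Nat.sub_zero, Nat.add_sub_cancel]
  calc ∑ k ∈ range m, (1 : ℝ) / ((1 + k : ℕ) : ℝ) ≤ ∑ k ∈ range (m + 1), (1 : ℝ) / ((1 + k : ℕ) : ℝ) :=
        sum_le_sum_of_subset_of_nonneg (range_subset_range.2 (by omega)) fun _ _ _ => by positivity
    _ = _ := by
        apply sum_congr rfl
        intro k _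
        push_cast
        rw [one_div]
        ring_nf

/-- the sum of the reciprocals of the distances (after Y959.Rs.RealK) -/
theorem harm_real {N : ℕ} {T : ℝ} {W : Finset ℝ} (h : Spaced N T W)
    (t : ℝ) (ht : t ∈ W) : ∑ u ∈ W.erase t, 1 / |t - u| ≤ 2 * (1 + Real.log (T + 1)) := by
  classical
  obtain ⟨-, hT1, hW, hsep⟩ := h
  have hT : 0 ≤ T := by linarith
  have hH : ∑ l ∈ Ico 1 (⌊T⌋₊ + 1), (1 : ℝ) / l ≤ 1 + Real.log (T + 1) := by
    have h1 := harm ⌊T⌋₊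
    have h2 : Real.log ((⌊T⌋₊ + 1 : ℕ) : ℝ) ≤ Real.log (T + 1) := by
      apply Real.log_le_log (by positivity)
      push_cast
      have := Nat.floor_le hT
      linarith
    linarith
  have key : ∀ (sg : ℝ) (S : Finset ℝ), (∀ u ∈ S, u ∈ W ∧ 1 ≤ sg * (u - t)) → (sg = 1 ∨ sg = -1) →
      ∑ u ∈ S, 1 / |t - u| ≤ 1 + Real.log (T + 1) := by
    intro sg S hS hsg
    refine le_trans ?_ hH
    have habs : ∀ u ∈ S, |t - u| = sg * (u - t) := by
      intro u hu
      have h1 := (hS u hu).2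
      rcases hsg with h | h
      · rw [h] at h1 ⊢
        rw [abs_sub_comm, abs_of_pos (by linarith)]
        ring
      · rw [h] at h1 ⊢
        rw [abs_of_pos (by linarith)]
        ring
    have hinj : Set.InjOn (fun u : ℝ => ⌊sg * (u - t)⌋₊) S := by
      intro u hu v hv huv
      by_contra hne
      have h1 := hsep u (hS u hu).1 v (hS v hv).1 hne
      have hu1 := (hS u hu).2
      have hv1 := (hS v hv).2
      have h2 : ⌊sg * (u - t)⌋₊ = ⌊sg * (v - t)⌋₊ := huv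
      have h3 := Nat.floor_le (by linarith : 0 ≤ sg * (u - t))
      have h4 := Nat.lt_floor_add_one (sg * (u - t))
      have h5 := Nat.floor_le (by linarith : 0 ≤ sg * (v - t))
      have h6 := Nat.lt_floor_add_one (sg * (v - t))
      rw [← h2] at h5 h6
      have h7 : |u - v| = |sg * (u - t) - sg * (v - t)| := by
        rcases hsg with h | h
        · rw [h]
          congr 1
          ring
        · rw [h, ← abs_neg]
          congr 1
          ring
      rw [h7] at h1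
      have h8 : |sg * (u - t) - sg * (v - t)| < 1 := by
        rw [abs_lt]
        constructor <;> linarith
      linarith
    have hsub : S.image (fun u : ℝ => ⌊sg * (u - t)⌋₊) ⊆ Ico 1 (⌊T⌋₊ + 1) := by
      intro k hk
      rw [mem_image] at hk
      obtain ⟨u, hu, rfl⟩ := hk
      rw [mem_Ico]
      refine ⟨Nat.le_floor (by push_cast; exact (hS u hu).2), Nat.lt_succ_of_le (Nat.floor_le_floor ?_)⟩
      have h1 := hW u (hS u hu).1
      have h2 := hW t ht
      rcases hsg with h | h <;> rw [h] <;> linarith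
    calc ∑ u ∈ S, 1 / |t - u| ≤ ∑ u ∈ S, (1 : ℝ) / (⌊sg * (u - t)⌋₊ : ℕ) := by
          apply sum_le_sum
          intro u hu
          rw [habs u hu]
          have h1 : (1 : ℝ) ≤ (⌊sg * (u - t)⌋₊ : ℕ) := by
            have : 1 ≤ ⌊sg * (u - t)⌋₊ := Nat.le_floor (by push_cast; exact (hS u hu).2)
            exact_mod_cast this
          exact one_div_le_one_div_of_le (by linarith) (Nat.floor_le (by linarith [(hS u hu).2]))
      _ = ∑ k ∈ S.image (fun u : ℝ => ⌊sg * (u - t)⌋₊), (1 : ℝ) / k := by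
          rw [sum_image hinj]
      _ ≤ _ := sum_le_sum_of_subset_of_nonneg hsub fun _ _ _ => by positivity
  have h1 := key 1 ((W.erase t).filter (fun u => t < u)) (by
    intro u hu
    rw [mem_filter, mem_erase] at hu
    refine ⟨hu.1.2, ?_⟩
    have h2 := hsep u hu.1.2 t ht hu.1.1
    rw [abs_of_pos (by linarith [hu.2])] at h2
    linarith) (Or.inl rfl)
  have h2 := key (-1) ((W.erase t).filter (fun u => ¬ t < u)) (by
    intro u hu
    rw [mem_filter, mem_erase] at hu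
    refine ⟨hu.1.2, ?_⟩
    have h2 := hsep t ht u hu.1.2 (Ne.symm hu.1.1)
    have h3 : u ≤ t := not_lt.1 hu.2
    rw [abs_of_nonneg (by linarith)] at h2
    linarith) (Or.inr rfl)
  have h3 := sum_filter_add_sum_filter_not (W.erase t) (fun u => t < u) (fun u => 1 / |t - u|)
  linarith

lemma ph_sub (t u : ℝ) {n : ℕ} (hn : 1 ≤ n) : ph t n * (starRingEnd ℂ) (ph u n) = ph (t - u) n := by
  rw [ph_eq t hn, ph_eq u hn, ph_eq (t - u) hn, ← Complex.exp_conj, ← Complex.exp_add]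
  congr 1
  simp only [map_neg, map_mul, Complex.conj_I, Complex.conj_ofReal]
  push_cast
  ring

lemma D_ph (a : ℕ → ℂ) (N : ℕ) (t : ℝ) : D a N t = ∑ n ∈ Icc 1 N, a n * ph t n := rfl

lemma ker_neg (u : ℝ) (N : ℕ) : ‖∑ n ∈ Icc 1 N, ph (-u) n‖ = ‖∑ n ∈ Icc 1 N, ph u n‖ := by
  have : ∑ n ∈ Icc 1 N, ph (-u) n = (starRingEnd ℂ) (∑ n ∈ Icc 1 N, ph u n) := by
    rw [map_sum]
    refine sum_congr rfl fun n hn => ?_
    have hn1 := (mem_Icc.1 hn).1
    rw [ph_eq _ hn1, ph_eq _ hn1, ← Complex.exp_conj]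
    congr 1
    simp only [map_neg, map_mul, Complex.conj_I, Complex.conj_ofReal]
    push_cast
    ring
  rw [this, Complex.norm_conj]

/-- duality -/
theorem dual (a : ℕ → ℂ) (ha : ∀ n, ‖a n‖ ≤ 1) (N : ℕ) (S : Finset ℝ) (R : ℝ)
    (hR : ∀ t ∈ S, ∑ u ∈ S, ‖∑ n ∈ Icc 1 N, ph (t - u) n‖ ≤ R) (hR0 : 0 ≤ R) :
    ∑ t ∈ S, ‖D a N t‖ ^ 2 ≤ N * R := by
  set X := ∑ t ∈ S, ‖D a N t‖ ^ 2 with hX
  have hX0 : 0 ≤ X := sum_nonneg fun _ _ => sq_nonneg _
  set c : ℝ → ℂ := fun t => (starRingEnd ℂ) (D a N t) with hc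
  have h1 : ((X : ℝ) : ℂ) = ∑ n ∈ Icc 1 N, a n * ∑ t ∈ S, c t * ph t n := by
    rw [hX]
    push_cast
    have : ∀ t ∈ S, ((‖D a N t‖ : ℂ)) ^ 2 = ∑ n ∈ Icc 1 N, a n * (c t * ph t n) := by
      intro t _
      rw [← Complex.conj_mul', D_ph, mul_sum]
      refine sum_congr rfl fun n _ => ?_
      simp only [hc, D_ph]
      ring
    rw [sum_congr rfl this, sum_comm]
    refine sum_congr rfl fun n _ => ?_
    rw [mul_sum]
  have h2 : X ≤ ∑ n ∈ Icc 1 N, ‖∑ t ∈ S, c t * ph t n‖ := by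
    calc X = ‖((X : ℝ) : ℂ)‖ := by rw [Complex.norm_real, Real.norm_of_nonneg hX0]
      _ ≤ ∑ n ∈ Icc 1 N, ‖a n * ∑ t ∈ S, c t * ph t n‖ := by rw [h1]; exact norm_sum_le _ _
      _ ≤ _ := by
        apply sum_le_sum
        intro n _
        rw [norm_mul]
        exact mul_le_of_le_one_left (norm_nonneg _) (ha n)
  have h3 : (∑ n ∈ Icc 1 N, ‖∑ t ∈ S, c t * ph t n‖) ^ 2 ≤ N * ∑ n ∈ Icc 1 N, ‖∑ t ∈ S, c t * ph t n‖ ^ 2 := by
    have := sq_sum_le_card_mul_sum_sq (s := Icc 1 N) (f := fun n => ‖∑ t ∈ S, c t * ph t n‖)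
    simpa using this
  have h4 : ((∑ n ∈ Icc 1 N, ‖∑ t ∈ S, c t * ph t n‖ ^ 2 : ℝ) : ℂ) =
      ∑ t ∈ S, ∑ u ∈ S, c t * (starRingEnd ℂ) (c u) * ∑ n ∈ Icc 1 N, ph (t - u) n := by
    push_cast
    have h5 : ∀ n ∈ Icc 1 N, ((‖∑ t ∈ S, c t * ph t n‖ : ℂ)) ^ 2 =
        ∑ t ∈ S, ∑ u ∈ S, c t * (starRingEnd ℂ) (c u) * ph (t - u) n := by
      intro n hn
      rw [← Complex.mul_conj', map_sum, sum_mul_sum]
      apply sum_congr rfl
      intro i _
      apply sum_congr rfl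
      intro j _
      rw [map_mul, ← ph_sub _ _ (mem_Icc.1 hn).1]
      ring
    rw [sum_congr rfl h5, sum_comm]
    apply sum_congr rfl
    intro i _
    rw [sum_comm]
    apply sum_congr rfl
    intro j _
    rw [mul_sum]
  have hcn : ∀ t, ‖c t‖ = ‖D a N t‖ := fun t => Complex.norm_conj _
  have h6 : ∑ n ∈ Icc 1 N, ‖∑ t ∈ S, c t * ph t n‖ ^ 2 ≤ X * R := by
    have h0 : 0 ≤ ∑ n ∈ Icc 1 N, ‖∑ t ∈ S, c t * ph t n‖ ^ 2 := sum_nonneg fun _ _ => sq_nonneg _
    calc ∑ n ∈ Icc 1 N, ‖∑ t ∈ S, c t * ph t n‖ ^ 2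
        = ‖((∑ n ∈ Icc 1 N, ‖∑ t ∈ S, c t * ph t n‖ ^ 2 : ℝ) : ℂ)‖ := by
          rw [Complex.norm_real, Real.norm_of_nonneg h0]
      _ ≤ ∑ t ∈ S, ∑ u ∈ S, ‖c t * (starRingEnd ℂ) (c u) * ∑ n ∈ Icc 1 N, ph (t - u) n‖ := by
          rw [h4]
          exact (norm_sum_le _ _).trans (sum_le_sum fun t _ => norm_sum_le _ _)
      _ ≤ ∑ t ∈ S, ∑ u ∈ S, ((‖c t‖ ^ 2 + ‖c u‖ ^ 2) / 2 * ‖∑ n ∈ Icc 1 N, ph (t - u) n‖) := by
          refine sum_le_sum fun t _ => sum_le_sum fun u _ => ?_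
          have e5 : ‖(starRingEnd ℂ) (c u)‖ = ‖c u‖ := Complex.norm_conj _
          rw [norm_mul, norm_mul, e5]
          apply mul_le_mul_of_nonneg_right _ (norm_nonneg _)
          nlinarith [sq_nonneg (‖c t‖ - ‖c u‖)]
      _ = ∑ t ∈ S, ∑ u ∈ S, ‖c t‖ ^ 2 * ‖∑ n ∈ Icc 1 N, ph (t - u) n‖ := by
          have e1 : ∑ t ∈ S, ∑ u ∈ S, ((‖c t‖ ^ 2 + ‖c u‖ ^ 2) / 2 * ‖∑ n ∈ Icc 1 N, ph (t - u) n‖) =
              (1 / 2) * ∑ t ∈ S, ∑ u ∈ S, ‖c t‖ ^ 2 * ‖∑ n ∈ Icc 1 N, ph (t - u) n‖ +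
              (1 / 2) * ∑ t ∈ S, ∑ u ∈ S, ‖c u‖ ^ 2 * ‖∑ n ∈ Icc 1 N, ph (t - u) n‖ := by
            rw [mul_sum, mul_sum, ← sum_add_distrib]
            refine sum_congr rfl fun t _ => ?_
            rw [mul_sum, mul_sum, ← sum_add_distrib]
            refine sum_congr rfl fun u _ => ?_
            ring
          have e2 : ∑ t ∈ S, ∑ u ∈ S, ‖c u‖ ^ 2 * ‖∑ n ∈ Icc 1 N, ph (t - u) n‖ =
              ∑ t ∈ S, ∑ u ∈ S, ‖c t‖ ^ 2 * ‖∑ n ∈ Icc 1 N, ph (t - u) n‖ := by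
            rw [sum_comm]
            refine sum_congr rfl fun t _ => sum_congr rfl fun u _ => ?_
            rw [show u - t = -(t - u) by ring, ker_neg]
          rw [e1, e2]
          ring
      _ ≤ ∑ t ∈ S, ‖c t‖ ^ 2 * R := by
          refine sum_le_sum fun t ht => ?_
          rw [← mul_sum]
          exact mul_le_mul_of_nonneg_left (hR t ht) (sq_nonneg _)
      _ = X * R := by
          rw [← sum_mul, hX]
          congr 1
          exact sum_congr rfl fun t _ => by rw [hcn]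
  have h7 : X ^ 2 ≤ N * (X * R) :=
    (pow_le_pow_left₀ hX0 h2 2).trans (h3.trans (mul_le_mul_of_nonneg_left h6 (by positivity)))
  rcases hX0.eq_or_lt with h | h
  · rw [← h]; positivity
  · have h8 : X * X ≤ (N * R) * X := by nlinarith
    exact le_of_mul_le_mul_right h8 h

/-- **Mean squares for `N ≥ T⁴`** -/
theorem big {ε : ℝ} (hε : 0 < ε) : ∃ C : ℝ, 0 < C ∧ ∀ (a : ℕ → ℂ), (∀ n, ‖a n‖ ≤ 1) → ∀ (N : ℕ) (T : ℝ) (S : Finset ℝ),
    Spaced N T S → T ^ 4 ≤ N → ∑ t ∈ S, ‖D a N t‖ ^ 2 ≤ C * (T ^ ε * (N : ℝ) ^ 2) := by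
  refine ⟨20 + 2 * (2 ^ ε / ε), by positivity, fun a ha N T S hS hTN => ?_⟩
  have hcard := card_le hS
  have hS' := hS
  obtain ⟨hN, hT, hST, hsp⟩ := hS'
  have hT0 : 0 < T := by linarith
  have hN1 : (1 : ℝ) ≤ N := by exact_mod_cast hN
  have hN0 : (0 : ℝ) < N := by linarith
  have hlogN : Real.log N ≤ 2 * Real.sqrt N := by
    have h1 := Real.log_le_rpow_div hN0.le (show (0 : ℝ) < 1 / 2 by norm_num)
    rw [← Real.sqrt_eq_rpow] at h1
    linarith
  have hsq : T ^ 2 ≤ Real.sqrt N := Real.le_sqrt_of_sq_le (by rw [← pow_mul]; exact hTN)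
  have hsN : Real.sqrt N * Real.sqrt N = N := Real.mul_self_sqrt hN0.le
  have hs1 : 1 ≤ Real.sqrt N := by
    have : (1 : ℝ) ≤ T ^ 2 := one_le_pow₀ hT
    linarith
  have hlT : 0 ≤ Real.log (T + 1) := Real.log_nonneg (by linarith)
  have hl0 : 0 ≤ Real.log N := Real.log_nonneg hN1
  have hrow : ∀ t ∈ S, ∑ u ∈ S, ‖∑ n ∈ Icc 1 N, ph (t - u) n‖ ≤ (18 + 2 * Real.log (T + 1)) * N := by
    intro t ht
    rw [← add_sum_erase S _ ht]
    have h1 : ‖∑ n ∈ Icc 1 N, ph (t - t) n‖ ≤ N := by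
      have := D_le (fun _ => 1) (fun _ => by simp) N (t - t)
      rw [D_ph] at this
      simpa using this
    have h2 : ∑ u ∈ S.erase t, ‖∑ n ∈ Icc 1 N, ph (t - u) n‖ ≤
        ∑ u ∈ S.erase t, (N * (1 / |t - u|) + (2 + T * (1 + Real.log N))) := by
      apply sum_le_sum
      intro u hu
      have hne := ne_of_mem_erase hu
      have huS := mem_of_mem_erase hu
      have h3 := kernel (t - u) N hN
      have h4 : 1 ≤ |t - u| := hsp t ht u huS (Ne.symm hne)
      rw [max_eq_right h4] at h3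
      have h5 : |t - u| ≤ T := by
        have h6 := hST t ht
        have h7 := hST u huS
        rw [abs_le]
        constructor <;> linarith
      have h6 : |t - u| * (1 + Real.log N) ≤ T * (1 + Real.log N) := mul_le_mul_of_nonneg_right h5 (by linarith)
      rw [mul_one_div]
      linarith
    rw [sum_add_distrib, ← mul_sum, sum_const, nsmul_eq_mul] at h2
    have h3 := mul_le_mul_of_nonneg_left (harm_real hS t ht) hN0.le
    have h4 : ((S.erase t).card : ℝ) * (2 + T * (1 + Real.log N)) ≤ (2 * T) * (2 + T * (1 + Real.log N)) := by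
      apply mul_le_mul_of_nonneg_right _ (by positivity)
      have : ((S.erase t).card : ℝ) ≤ S.card := by exact_mod_cast card_le_card (erase_subset _ _)
      linarith
    have h5 : (2 * T) * (2 + T * (1 + Real.log N)) ≤ 15 * N := by
      have h6 : T ≤ T ^ 2 := by nlinarith
      have h7 : T ^ 2 * Real.log N ≤ Real.sqrt N * (2 * Real.sqrt N) :=
        mul_le_mul hsq hlogN hl0 (by linarith)
      have h8 : Real.sqrt N ≤ N := by nlinarith
      nlinarith
    linarith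
  have h1 := dual a ha N S _ hrow (by positivity)
  have h2 : Real.log (T + 1) ≤ 2 ^ ε / ε * T ^ ε := by
    have h3 : Real.log (T + 1) ≤ Real.log (2 * T) := Real.log_le_log (by linarith) (by linarith)
    have h4 := Real.log_le_rpow_div (x := 2 * T) (by positivity) hε
    rw [Real.mul_rpow (by norm_num) hT0.le] at h4
    calc _ ≤ _ := h3
      _ ≤ _ := h4
      _ = _ := by ring
  have hTe : 1 ≤ T ^ ε := Real.one_le_rpow hT hε.le
  refine h1.trans ?_
  have h5 : (18 + 2 * Real.log (T + 1)) ≤ (20 + 2 * (2 ^ ε / ε)) * T ^ ε := by nlinarith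
  have h6 := mul_le_mul_of_nonneg_right h5 (show 0 ≤ (N : ℝ) ^ 2 by positivity)
  nlinarith

end Pool.Agent.Q144.SS
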