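import Pool.Agent.Q144.SS.Zo

/-!
# Multiplicatively syndetic sets: examples
-/

set_option autoImplicit false

namespace Pool.Agent.Q144.SS

open Finset

section

variable {G : Type*} [Group G] [Finite G] {f : ℕ → G}

lemma f_one (hf : ∀ m n, 1 ≤ m → 1 ≤ n → f (m * n) = f m * f n) : f 1 = 1 := by
  have := hf 1 1 le_rfl le_rfl
  rw [mul_one] at this
  exact (mul_eq_left.1 this.symm)

lemma f_pow (hf : ∀ m n, 1 ≤ m → 1 ≤ n → f (m * n) = f m * f n) (n : ℕ) (hn : 1 ≤ n) (j : ℕ) :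
    f (n ^ j) = f n ^ j := by
  induction j with
  | zero => rw [pow_zero, pow_zero, f_one hf]
  | succ j ih => rw [pow_succ, pow_succ, hf _ _ (Nat.one_le_pow _ _ hn) hn, ih]

/-- the multiplier -/
lemma f_rep (hf : ∀ m n, 1 ≤ m → 1 ≤ n → f (m * n) = f m * f n) {g : G} (hg : ∃ n, 1 ≤ n ∧ f n = g) :
    ∃ M₀ : ℕ, 1 ≤ M₀ ∧ ∀ n, 1 ≤ n → ∃ m, 1 ≤ m ∧ m ≤ M₀ ∧ f m * f n = g := by
  classical
  obtain ⟨ng, hng, rfl⟩ := hg
  have := Fintype.ofFinite G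
  have hch : ∀ s : G, ∃ m : ℕ, 1 ≤ m ∧ ((∃ n, 1 ≤ n ∧ f n = s) → f m = s) := by
    intro s
    by_cases h : ∃ n, 1 ≤ n ∧ f n = s
    · obtain ⟨n, hn, h2⟩ := h
      exact ⟨n, hn, fun _ => h2⟩
    · exact ⟨1, le_rfl, fun h' => absurd h' h⟩
  choose rep hrep1 hrep2 using hch
  refine ⟨1 + ∑ s, rep s, by omega, fun n hn => ⟨rep (f ng * (f n)⁻¹), hrep1 _, ?_, ?_⟩⟩
  · have := single_le_sum (f := rep) (fun s _ => Nat.zero_le _) (mem_univ (f ng * (f n)⁻¹))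
    omega
  · have h1 : f (rep (f ng * (f n)⁻¹)) = f ng * (f n)⁻¹ := by
      apply hrep2
      refine ⟨ng * n ^ (Fintype.card G - 1), Nat.mul_pos hng (Nat.one_le_pow _ _ hn), ?_⟩
      rw [hf _ _ hng (Nat.one_le_pow _ _ hn), f_pow hf n hn]
      congr 1
      have h2 : f n ^ (Fintype.card G - 1) * f n = 1 := by
        rw [← pow_succ, Nat.sub_add_cancel Fintype.card_pos, pow_card_eq_one]
      exact eq_inv_of_mul_eq_one_left h2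
    rw [h1]
    group

end

/-- `k`-th powers times `A` in a window -/
lemma window {B x y : ℝ} (hB : 1 < B) (hx : 0 < x) (hxy : x < y) (k : ℕ) (hk : 1 ≤ k) :
    ∃ K : ℝ, 1 ≤ K ∧ ∀ A : ℝ, 1 ≤ A → ∃ r j : ℕ, 1 ≤ r ∧ ((r : ℝ) ^ k) ≤ K ∧ x * B ^ j ≤ A * (r : ℝ) ^ k ∧
      A * (r : ℝ) ^ k < y * B ^ j := by
  have hy : 0 < y := hx.trans hxy
  have hk0 : (0 : ℝ) < k := by exact_mod_cast hk
  have hkne : k ≠ 0 := by omega
  set p : ℝ := 1 / k with hp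
  have hp0 : 0 < p := by positivity
  have hpow : ∀ z : ℝ, 0 ≤ z → (z ^ p) ^ k = z := by
    intro z hz
    rw [hp, ← Real.rpow_natCast, ← Real.rpow_mul hz, one_div, inv_mul_cancel₀ hk0.ne', Real.rpow_one]
  set c : ℝ := y ^ p - x ^ p with hc
  have hc0 : 0 < c := sub_pos.2 (Real.rpow_lt_rpow hx.le hxy hp0)
  have hck : 0 < c ^ k := pow_pos hc0 k
  refine ⟨1 + y * (1 + B / c ^ k), by
    have : 0 ≤ y * (1 + B / c ^ k) := by positivity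
    linarith, fun A hA => ?_⟩
  have hA0 : 0 < A := by linarith
  -- the exponent
  obtain ⟨j, hj1, hj2⟩ : ∃ j : ℕ, A / c ^ k ≤ B ^ j ∧ B ^ j ≤ A * (1 + B / c ^ k) := by
    rcases le_or_gt (A / c ^ k) 1 with h | h
    · refine ⟨0, by rw [pow_zero]; exact h, ?_⟩
      rw [pow_zero]
      have : 0 ≤ B / c ^ k := by positivity
      nlinarith
    · obtain ⟨n, hn1, hn2⟩ := exists_nat_pow_near h.le hB
      refine ⟨n + 1, hn2.le, ?_⟩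
      rw [pow_succ]
      calc B ^ n * B ≤ A / c ^ k * B := mul_le_mul_of_nonneg_right hn1 (by linarith)
        _ = A * (B / c ^ k) := by ring
        _ ≤ A * (1 + B / c ^ k) := mul_le_mul_of_nonneg_left (by linarith) hA0.le
  have hBj : 0 < B ^ j := pow_pos (by linarith) j
  set u : ℝ := (x * B ^ j / A) ^ p with hu
  set v : ℝ := (y * B ^ j / A) ^ p with hv
  have hu0 : 0 < u := Real.rpow_pos_of_pos (by positivity) _
  have huv : 1 ≤ v - u := by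
    have e1 : u = x ^ p * (B ^ j / A) ^ p := by
      rw [hu, mul_div_assoc, Real.mul_rpow hx.le (by positivity)]
    have e2 : v = y ^ p * (B ^ j / A) ^ p := by
      rw [hv, mul_div_assoc, Real.mul_rpow hy.le (by positivity)]
    have e3 : v - u = c * (B ^ j / A) ^ p := by rw [e1, e2, hc]; ring
    rw [e3]
    have h1 : (1 / c ^ k) ≤ B ^ j / A := by
      rw [div_le_div_iff₀ hck hA0, one_mul]
      rw [div_le_iff₀ hck] at hj1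
      exact hj1
    have h2 : (1 / c ^ k) ^ p ≤ (B ^ j / A) ^ p := Real.rpow_le_rpow (by positivity) h1 hp0.le
    have h3 : (1 / c ^ k) ^ p = 1 / c := by
      rw [one_div, ← inv_pow, ← Real.rpow_natCast, ← Real.rpow_mul (by positivity), hp, one_div,
        mul_inv_cancel₀ hk0.ne', Real.rpow_one, one_div]
    rw [h3] at h2
    calc (1 : ℝ) = c * (1 / c) := by field_simp
      _ ≤ _ := mul_le_mul_of_nonneg_left h2 hc0.le
  have hr1 : u ≤ (⌈u⌉₊ : ℝ) := Nat.le_ceil u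
  have hr2 : (⌈u⌉₊ : ℝ) < u + 1 := Nat.ceil_lt_add_one hu0.le
  have hr3 : (⌈u⌉₊ : ℝ) < v := by linarith
  have hr0 : (0 : ℝ) ≤ (⌈u⌉₊ : ℝ) := Nat.cast_nonneg _
  have hv0 : 0 < v := by linarith
  have hlow : x * B ^ j / A ≤ (⌈u⌉₊ : ℝ) ^ k := by
    rw [← hpow (x * B ^ j / A) (by positivity)]
    exact pow_le_pow_left₀ hu0.le hr1 k
  have hup : (⌈u⌉₊ : ℝ) ^ k < y * B ^ j / A := by
    rw [← hpow (y * B ^ j / A) (by positivity)]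
    exact pow_lt_pow_left₀ hr3 hr0 hkne
  refine ⟨⌈u⌉₊, j, Nat.one_le_iff_ne_zero.2 (Nat.ceil_pos.2 hu0).ne', ?_, ?_, ?_⟩
  · have h1 : y * B ^ j / A ≤ y * (1 + B / c ^ k) := by
      rw [div_le_iff₀ hA0]
      calc y * B ^ j ≤ y * (A * (1 + B / c ^ k)) := mul_le_mul_of_nonneg_left hj2 hy.le
        _ = _ := by ring
    linarith
  · rw [div_le_iff₀ hA0] at hlow
    linarith
  · rw [lt_div_iff₀ hA0] at hup
    linarith

/-- the general example -/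
theorem syndetic_ex {G : Type*} [Group G] [Finite G] (f : ℕ → G) (g : G) (q : ℕ → ℕ) (B x y : ℝ)
    (hf : ∀ m n, 1 ≤ m → 1 ≤ n → f (m * n) = f m * f n) (hg : ∃ n, 1 ≤ n ∧ f n = g)
    (hq : ∀ a b, 1 ≤ a → a ≤ b → q a ∣ q b) (hq1 : ∀ n, 1 ≤ n → 1 ≤ q n)
    (hq2 : ∀ δ : ℝ, 0 < δ → ∃ C : ℝ, ∀ n : ℕ, 1 ≤ n → (q n : ℝ) ≤ C * (n : ℝ) ^ δ)
    (hB : 1 < B) (hx : 0 < x) (hxy : x < y) :
    Syndetic {n | f n = g ∧ q n ∣ n ∧ ∃ j : ℕ, x * B ^ j ≤ n ∧ n < y * B ^ j} := by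
  intro η hη
  have := Fintype.ofFinite G
  obtain ⟨k, hk⟩ : ∃ k : ℕ, k = Fintype.card G := ⟨_, rfl⟩
  have hk1 : 1 ≤ k := by rw [hk]; exact Fintype.card_pos
  have hk0 : (0 : ℝ) < k := by exact_mod_cast hk1
  obtain ⟨M₀, hM₀, hrep⟩ := f_rep hf hg
  obtain ⟨K, hK1, hwin⟩ := window hB hx hxy k hk1
  obtain ⟨δ, hδ⟩ : ∃ δ : ℝ, δ = min η 1 / (2 * k) := ⟨_, rfl⟩
  have hmin : 0 < min η 1 := lt_min hη one_pos
  have hδ0 : 0 < δ := by rw [hδ]; positivity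
  have hδk : δ * k = min η 1 / 2 := by rw [hδ]; field_simp
  obtain ⟨C₀, hC₀⟩ := hq2 δ hδ0
  obtain ⟨C, hCdef⟩ : ∃ C : ℝ, C = max C₀ 1 := ⟨_, rfl⟩
  have hC1 : 1 ≤ C := by rw [hCdef]; exact le_max_right _ _
  have hCC : ∀ n : ℕ, 1 ≤ n → (q n : ℝ) ≤ C * (n : ℝ) ^ δ := by
    intro n hn
    refine (hC₀ n hn).trans (mul_le_mul_of_nonneg_right ?_ (by positivity))
    rw [hCdef]; exact le_max_left _ _
  have hM1 : (1 : ℝ) ≤ M₀ := by exact_mod_cast hM₀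
  obtain ⟨K4, hK4⟩ : ∃ K4 : ℝ, K4 = M₀ * K * C ^ k := ⟨_, rfl⟩
  have hCk : 1 ≤ C ^ k := one_le_pow₀ hC1
  have hK41 : 1 ≤ K4 := by
    rw [hK4]
    calc (1 : ℝ) = 1 * 1 * 1 := by norm_num
      _ ≤ M₀ * K * C ^ k := mul_le_mul (mul_le_mul hM1 hK1 zero_le_one (by linarith)) hCk zero_le_one (by positivity)
  obtain ⟨K5, hK5⟩ : ∃ K5 : ℕ, K5 = ⌈K4⌉₊ := ⟨_, rfl⟩
  have hK5le : K4 ≤ K5 := by rw [hK5]; exact Nat.le_ceil _
  have hK51 : 1 ≤ K5 := by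
    have : (1 : ℝ) ≤ K5 := hK41.trans hK5le
    exact_mod_cast this
  have hK50 : (1 : ℝ) ≤ K5 := by exact_mod_cast hK51
  refine ⟨K4 * (K5 : ℝ) ^ (min η 1), fun n hn => ?_⟩
  have hn1 : (1 : ℝ) ≤ n := by exact_mod_cast hn
  have hn0 : (0 : ℝ) < n := by linarith
  obtain ⟨Z, hZ⟩ : ∃ Z : ℕ, Z = (K5 * n) ^ 2 := ⟨_, rfl⟩
  have hZ1 : 1 ≤ Z := by rw [hZ]; exact Nat.one_le_pow _ _ (Nat.mul_pos hK51 hn)
  have hZ1' : (1 : ℝ) ≤ Z := by exact_mod_cast hZ1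
  obtain ⟨m0, hm01, hm02, hm03⟩ := hrep n hn
  have hm01' : (1 : ℝ) ≤ m0 := by exact_mod_cast hm01
  have hQ1 := hq1 Z hZ1
  have hQ1' : (1 : ℝ) ≤ q Z := by exact_mod_cast hQ1
  have hQk : (1 : ℝ) ≤ (q Z : ℝ) ^ k := one_le_pow₀ hQ1'
  have hA1 : (1 : ℝ) ≤ m0 * (q Z : ℝ) ^ k * n := by
    calc (1 : ℝ) = 1 * 1 * 1 := by norm_num
      _ ≤ _ := mul_le_mul (mul_le_mul hm01' hQk zero_le_one (by linarith)) hn1 zero_le_one (by positivity)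
  obtain ⟨r, j, hr1, hrK, hj1, hj2⟩ := hwin _ hA1
  have hQle : (q Z : ℝ) ^ k ≤ C ^ k * (Z : ℝ) ^ (min η 1 / 2) := by
    calc (q Z : ℝ) ^ k ≤ (C * (Z : ℝ) ^ δ) ^ k := pow_le_pow_left₀ (by linarith) (hCC Z hZ1) k
      _ = C ^ k * (Z : ℝ) ^ (min η 1 / 2) := by
        rw [mul_pow, ← Real.rpow_natCast ((Z : ℝ) ^ δ) k, ← Real.rpow_mul (by linarith), hδk]
  have hmle : (m0 : ℝ) * (q Z : ℝ) ^ k * (r : ℝ) ^ k ≤ K4 * (Z : ℝ) ^ (min η 1 / 2) := by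
    have h1 : (m0 : ℝ) ≤ M₀ := by exact_mod_cast hm02
    calc (m0 : ℝ) * (q Z : ℝ) ^ k * (r : ℝ) ^ k ≤ (M₀ * (C ^ k * (Z : ℝ) ^ (min η 1 / 2))) * K :=
          mul_le_mul (mul_le_mul h1 hQle (by positivity) (by positivity)) hrK (by positivity) (by positivity)
      _ = _ := by rw [hK4]; ring
  refine ⟨m0 * q Z ^ k * r ^ k, ?_, ?_, ?_, ?_, ?_⟩
  · exact Nat.mul_pos (Nat.mul_pos hm01 (Nat.one_le_pow _ _ hQ1)) (Nat.one_le_pow _ _ hr1)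
  · push_cast
    refine hmle.trans ?_
    have h1 : (Z : ℝ) ^ (min η 1 / 2) = (K5 : ℝ) ^ (min η 1) * (n : ℝ) ^ (min η 1) := by
      rw [hZ]
      push_cast
      rw [← Real.rpow_natCast, ← Real.rpow_mul (by positivity)]
      have : ((2 : ℕ) : ℝ) * (min η 1 / 2) = min η 1 := by push_cast; ring
      rw [this, Real.mul_rpow (by linarith) (by linarith)]
    rw [h1]
    have h2 : (n : ℝ) ^ (min η 1) ≤ (n : ℝ) ^ η := Real.rpow_le_rpow_of_exponent_le hn1 (min_le_left _ _)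
    calc K4 * ((K5 : ℝ) ^ (min η 1) * (n : ℝ) ^ (min η 1)) = K4 * (K5 : ℝ) ^ (min η 1) * (n : ℝ) ^ (min η 1) := by ring
      _ ≤ _ := mul_le_mul_of_nonneg_left h2 (by positivity)
  · -- the value of `f`
    have hQ' : 1 ≤ q Z ^ k := Nat.one_le_pow _ _ hQ1
    have hr' : 1 ≤ r ^ k := Nat.one_le_pow _ _ hr1
    show f (m0 * q Z ^ k * r ^ k * n) = g
    rw [hf _ _ (Nat.mul_pos (Nat.mul_pos hm01 hQ') hr') hn, hf _ _ (Nat.mul_pos hm01 hQ') hr', hf _ _ hm01 hQ',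
      f_pow hf _ hQ1, f_pow hf _ hr1, hk, pow_card_eq_one, pow_card_eq_one, mul_one, mul_one]
    exact hm03
  · -- divisibility
    have h1 : m0 * q Z ^ k * r ^ k * n ≤ Z := by
      have h2 : ((m0 * q Z ^ k * r ^ k * n : ℕ) : ℝ) ≤ (Z : ℝ) := by
        push_cast
        have h3 : (Z : ℝ) ^ (min η 1 / 2) ≤ (Z : ℝ) ^ (1 / 2 : ℝ) :=
          Real.rpow_le_rpow_of_exponent_le hZ1' (by have := min_le_right η 1; linarith)
        have h4 : (Z : ℝ) ^ (1 / 2 : ℝ) = K5 * n := by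
          rw [hZ]
          push_cast
          rw [← Real.sqrt_eq_rpow, Real.sqrt_sq (by positivity)]
        have h5 : (Z : ℝ) = (K5 * n) * (K5 * n) := by rw [hZ]; push_cast; ring
        calc (m0 : ℝ) * (q Z : ℝ) ^ k * (r : ℝ) ^ k * n ≤ (K4 * (K5 * n)) * n := by
              apply mul_le_mul_of_nonneg_right _ hn0.le
              rw [← h4]
              exact hmle.trans (mul_le_mul_of_nonneg_left h3 (by linarith))
          _ = (K4 * n) * (K5 * n) := by ring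
          _ ≤ (K5 * n) * (K5 * n) := by
              apply mul_le_mul_of_nonneg_right _ (by positivity)
              exact mul_le_mul_of_nonneg_right hK5le hn0.le
          _ = Z := h5.symm
      exact_mod_cast h2
    have h2 : 1 ≤ m0 * q Z ^ k * r ^ k * n :=
      Nat.mul_pos (Nat.mul_pos (Nat.mul_pos hm01 (Nat.one_le_pow _ _ hQ1)) (Nat.one_le_pow _ _ hr1)) hn
    refine (hq _ Z h2 h1).trans ?_
    have h3 : q Z ∣ q Z ^ k := dvd_pow_self _ (by omega)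
    exact Dvd.dvd.mul_right (Dvd.dvd.mul_right (Dvd.dvd.mul_left h3 _) _) _
  · refine ⟨j, ?_, ?_⟩
    · push_cast
      calc x * B ^ j ≤ m0 * (q Z : ℝ) ^ k * n * (r : ℝ) ^ k := hj1
        _ = _ := by ring
    · push_cast
      calc (m0 : ℝ) * (q Z : ℝ) ^ k * (r : ℝ) ^ k * n = m0 * (q Z : ℝ) ^ k * n * (r : ℝ) ^ k := by ring
        _ < _ := hj2

/-- **transference** for arbitrary finite sets of points -/
theorem transfer {E : Set ℕ} {N M : ℕ} (hN : 1 ≤ N)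
    (h : ∀ n, 1 ≤ n → n ≤ N → ∃ m, 1 ≤ m ∧ m ≤ M ∧ m * n ∈ E) (a : ℕ → ℂ) (ha : ∀ n, ‖a n‖ ≤ 1) (S : Finset ℝ) :
    ∃ b : ℕ → ℂ, (∀ n, ‖b n‖ ≤ 1) ∧ (∀ n, n ∉ E → b n = 0) ∧
      ∑ t ∈ S, ‖D a N t‖ ^ 2 ≤ (M : ℝ) ^ 2 * ∑ t ∈ S, ‖D b (N * M) t‖ ^ 2 := by
  have hch : ∀ n : ℕ, ∃ m : ℕ, 1 ≤ n → n ≤ N → 1 ≤ m ∧ m ≤ M ∧ m * n ∈ E := by
    intro n
    by_cases hn : 1 ≤ n ∧ n ≤ N
    · obtain ⟨m, hm⟩ := h n hn.1 hn.2
      exact ⟨m, fun _ _ => hm⟩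
    · exact ⟨0, fun h1 h2 => absurd ⟨h1, h2⟩ hn⟩
  choose mu hmu using hch
  have hM : 1 ≤ M := (hmu 1 le_rfl hN).1.trans (hmu 1 le_rfl hN).2.1
  obtain ⟨m, hm, hmax⟩ := exists_max_image (Icc 1 M) (fun m => ∑ t ∈ S, ‖D (bb a N mu m) (N * M) t‖ ^ 2)
    ⟨1, mem_Icc.2 ⟨le_rfl, hM⟩⟩
  refine ⟨bb a N mu m, bb_norm ha N mu m, ?_, ?_⟩
  · intro k hk
    unfold bb
    rw [if_neg]
    rintro ⟨h3, h4, h5, h6⟩
    apply hk
    have h7 := (hmu (k / m) h4 h5).2.2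
    rw [h6, Nat.mul_div_cancel' h3] at h7
    exact h7
  · calc ∑ t ∈ S, ‖D a N t‖ ^ 2 ≤ ∑ t ∈ S, (M * ∑ m ∈ Icc 1 M, ‖D (bb a N mu m) (N * M) t‖ ^ 2) :=
          sum_le_sum fun t _ => dil_sq a N M mu (fun n h1 h2 => ⟨(hmu n h1 h2).1, (hmu n h1 h2).2.1⟩) t
      _ = M * ∑ m ∈ Icc 1 M, ∑ t ∈ S, ‖D (bb a N mu m) (N * M) t‖ ^ 2 := by
          rw [← mul_sum, sum_comm]
      _ ≤ M * ∑ _m ∈ Icc 1 M, ∑ t ∈ S, ‖D (bb a N mu m) (N * M) t‖ ^ 2 := by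
          apply mul_le_mul_of_nonneg_left _ (by positivity)
          exact sum_le_sum fun m' hm' => hmax m' hm'
      _ = _ := by
          rw [sum_const, Nat.card_Icc, nsmul_eq_mul, Nat.add_sub_cancel]
          ring

end Pool.Agent.Q144.SS
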