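import Pool.Agent.Q144.SS.Big

/-!
# Large values: supports in multiplicatively syndetic sets
-/

set_option autoImplicit false

namespace Pool.Agent.Q144.SS

open Finset

/-- every `n` has a multiple `m n` in `E` with `m ≤ C n^η`, for every `η > 0` -/
def Syndetic (E : Set ℕ) : Prop :=
  ∀ η : ℝ, 0 < η → ∃ C : ℝ, ∀ n : ℕ, 1 ≤ n → ∃ m : ℕ, 1 ≤ m ∧ (m : ℝ) ≤ C * (n : ℝ) ^ η ∧ m * n ∈ E

/-- the indicator function -/
noncomputable def ind (A : Set ℕ) : ℕ → ℂ := A.indicator 1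

lemma ind_norm (A : Set ℕ) (n : ℕ) : ‖ind A n‖ ≤ 1 := by
  unfold ind
  by_cases h : n ∈ A
  · rw [Set.indicator_of_mem h]; simp
  · rw [Set.indicator_of_notMem h]; simp

lemma D_congr {a b : ℕ → ℂ} {N : ℕ} {t : ℝ} (h : ∀ n, 1 ≤ n → n ≤ N → a n = b n) : D a N t = D b N t := by
  unfold D
  refine sum_congr rfl fun n hn => ?_
  rw [h n (mem_Icc.1 hn).1 (mem_Icc.1 hn).2]

lemma ph_mul (t : ℝ) {m n : ℕ} (hm : 1 ≤ m) (hn : 1 ≤ n) :
    (starRingEnd ℂ) (ph t m) * ph t (m * n) = ph t n := by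
  have hm0 : (m : ℝ) ≠ 0 := by exact_mod_cast (by omega : m ≠ 0)
  have hn0 : (n : ℝ) ≠ 0 := by exact_mod_cast (by omega : n ≠ 0)
  rw [ph_eq t hm, ph_eq t (Nat.mul_pos hm hn), ph_eq t hn, ← Complex.exp_conj, ← Complex.exp_add]
  congr 1
  have e : Real.log ((m * n : ℕ) : ℝ) = Real.log m + Real.log n := by
    push_cast
    exact Real.log_mul hm0 hn0
  rw [e]
  simp only [map_neg, map_mul, Complex.conj_I, Complex.conj_ofReal]
  push_cast
  ring

/-- the coefficients of a dilated piece -/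
noncomputable def bb (a : ℕ → ℂ) (N : ℕ) (mu : ℕ → ℕ) (m k : ℕ) : ℂ :=
  if m ∣ k ∧ 1 ≤ k / m ∧ k / m ≤ N ∧ mu (k / m) = m then a (k / m) else 0

lemma bb_norm {a : ℕ → ℂ} (ha : ∀ n, ‖a n‖ ≤ 1) (N : ℕ) (mu : ℕ → ℕ) (m k : ℕ) : ‖bb a N mu m k‖ ≤ 1 := by
  unfold bb
  split_ifs
  · exact ha _
  · simp

theorem dil (a : ℕ → ℂ) (N M : ℕ) (mu : ℕ → ℕ) (h : ∀ n, 1 ≤ n → n ≤ N → 1 ≤ mu n ∧ mu n ≤ M) (t : ℝ) :
    D a N t = ∑ m ∈ Icc 1 M, (starRingEnd ℂ) (ph t m) * D (bb a N mu m) (N * M) t := by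
  have h1 : ∀ m ∈ Icc 1 M, (starRingEnd ℂ) (ph t m) * D (bb a N mu m) (N * M) t =
      ∑ n ∈ (Icc 1 N).filter (fun n => mu n = m), a n * ph t n := by
    intro m hm
    rw [mem_Icc] at hm
    have h2 : D (bb a N mu m) (N * M) t = ∑ n ∈ (Icc 1 N).filter (fun n => mu n = m), a n * ph t (m * n) := by
      rw [D_ph]
      symm
      refine sum_of_injOn (fun n => m * n) ?_ ?_ ?_ ?_
      · intro x _ y _ hxy
        exact Nat.eq_of_mul_eq_mul_left hm.1 hxy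
      · intro n hn
        rw [mem_coe, mem_filter, mem_Icc] at hn
        rw [mem_coe, mem_Icc]
        refine ⟨Nat.mul_pos hm.1 hn.1.1, ?_⟩
        rw [mul_comm N M]
        exact Nat.mul_le_mul hm.2 hn.1.2
      · intro k _ hk
        have : bb a N mu m k = 0 := by
          unfold bb
          rw [if_neg]
          rintro ⟨h3, h4, h5, h6⟩
          apply hk
          refine ⟨k / m, ?_, ?_⟩
          · rw [mem_coe, mem_filter, mem_Icc]
            exact ⟨⟨h4, h5⟩, h6⟩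
          · exact Nat.mul_div_cancel' h3
        rw [this, zero_mul]
      · intro n hn
        rw [mem_filter, mem_Icc] at hn
        have : bb a N mu m (m * n) = a n := by
          unfold bb
          rw [Nat.mul_div_cancel_left n hm.1, if_pos ⟨Dvd.intro n rfl, hn.1.1, hn.1.2, hn.2⟩]
        rw [this]
    rw [h2, mul_sum]
    refine sum_congr rfl fun n hn => ?_
    rw [mem_filter, mem_Icc] at hn
    rw [← ph_mul t hm.1 hn.1.1]
    ring
  rw [sum_congr rfl h1, D_ph]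
  exact (sum_fiberwise_of_maps_to (fun n hn => by
    rw [mem_Icc] at hn
    rw [mem_Icc]
    exact h n hn.1 hn.2) _).symm

theorem dil_sq (a : ℕ → ℂ) (N M : ℕ) (mu : ℕ → ℕ) (h : ∀ n, 1 ≤ n → n ≤ N → 1 ≤ mu n ∧ mu n ≤ M) (t : ℝ) :
    ‖D a N t‖ ^ 2 ≤ M * ∑ m ∈ Icc 1 M, ‖D (bb a N mu m) (N * M) t‖ ^ 2 := by
  have h1 : ‖D a N t‖ ≤ ∑ m ∈ Icc 1 M, ‖D (bb a N mu m) (N * M) t‖ := by
    rw [dil a N M mu h t]
    refine (norm_sum_le _ _).trans (sum_le_sum fun m hm => ?_)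
    rw [norm_mul, Complex.norm_conj]
    have : ‖ph t m‖ = 1 := ph_norm m (mem_Icc.1 hm).1 t
    rw [this, one_mul]
  have h2 := sq_sum_le_card_mul_sum_sq (s := Icc 1 M) (f := fun m => ‖D (bb a N mu m) (N * M) t‖)
  rw [Nat.card_Icc, Nat.add_sub_cancel] at h2
  exact (pow_le_pow_left₀ (norm_nonneg _) h1 2).trans h2

/-- the mean square bound for all coefficients supported on `E` -/
def MSE (E : Set ℕ) : Prop := ∀ ε : ℝ, 0 < ε → ∃ C : ℝ, ∀ a : ℕ → ℂ, (∀ n, ‖a n‖ ≤ 1) → (∀ n, n ∉ E → a n = 0) →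
  MeanSquares ε C a

theorem all_of_E {E : Set ℕ} (hE : Syndetic E) (h : MSE E) : MSE Set.univ := by
  intro ε hε
  obtain ⟨η, hη⟩ : ∃ η : ℝ, η = ε / 32 := ⟨_, rfl⟩
  have hη0 : 0 < η := by rw [hη]; positivity
  obtain ⟨K₀, hK₀⟩ := hE η hη0
  obtain ⟨K, hKdef⟩ : ∃ K : ℝ, K = max K₀ 1 := ⟨_, rfl⟩
  have hK1 : 1 ≤ K := by rw [hKdef]; exact le_max_right _ _
  obtain ⟨C₀, hC₀⟩ := h (ε / 2) (by positivity)
  obtain ⟨C₁, hC₁, hbig⟩ := big hε
  refine ⟨C₁ + K ^ 4 * |C₀|, fun a ha _ N T S hS => ?_⟩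
  have hS' := hS
  obtain ⟨hN, hT, hST, hsp⟩ := hS'
  have hT0 : 0 < T := by linarith
  have hN1 : (1 : ℝ) ≤ N := by exact_mod_cast hN
  have hN0 : (0 : ℝ) < N := by linarith
  have hc0 : (0 : ℝ) ≤ S.card := Nat.cast_nonneg _
  have hpos : 0 ≤ T ^ ε * ((N : ℝ) ^ 2 + S.card * N) := by positivity
  rcases le_or_gt (T ^ 4) (N : ℝ) with hcase | hcase
  · have h1 := hbig a ha N T S hS hcase
    have h2 : C₁ * (T ^ ε * (N : ℝ) ^ 2) ≤ C₁ * (T ^ ε * ((N : ℝ) ^ 2 + S.card * N)) := by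
      apply mul_le_mul_of_nonneg_left _ hC₁.le
      apply mul_le_mul_of_nonneg_left _ (by positivity)
      have : 0 ≤ (S.card : ℝ) * N := by positivity
      linarith
    have h3 : 0 ≤ K ^ 4 * |C₀| * (T ^ ε * ((N : ℝ) ^ 2 + S.card * N)) := by positivity
    linarith
  · -- the multipliers
    have hch : ∀ n : ℕ, ∃ m : ℕ, 1 ≤ n → 1 ≤ m ∧ (m : ℝ) ≤ K₀ * (n : ℝ) ^ η ∧ m * n ∈ E := by
      intro n
      by_cases hn : 1 ≤ n
      · obtain ⟨m, hm⟩ := hK₀ n hn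
        exact ⟨m, fun _ => hm⟩
      · exact ⟨0, fun h => absurd h hn⟩
    choose mu hmu using hch
    obtain ⟨M, hM⟩ : ∃ M : ℕ, M = ⌊K * (N : ℝ) ^ η⌋₊ := ⟨_, rfl⟩
    have hNη : 1 ≤ (N : ℝ) ^ η := Real.one_le_rpow hN1 hη0.le
    have hKN : 1 ≤ K * (N : ℝ) ^ η := by nlinarith
    have hM1 : 1 ≤ M := by rw [hM]; exact Nat.le_floor (by push_cast; exact hKN)
    have hMle : (M : ℝ) ≤ K * (N : ℝ) ^ η := by rw [hM]; exact Nat.floor_le (by linarith)
    have hmu' : ∀ n, 1 ≤ n → n ≤ N → 1 ≤ mu n ∧ mu n ≤ M := by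
      intro n hn hnN
      refine ⟨(hmu n hn).1, ?_⟩
      rw [hM]
      apply Nat.le_floor
      refine (hmu n hn).2.1.trans ?_
      apply mul_le_mul (by rw [hKdef]; exact le_max_left _ _) _ (by positivity) (by linarith)
      exact Real.rpow_le_rpow (by positivity) (by exact_mod_cast hnN) hη0.le
    have hS2 : Spaced (N * M) T S := ⟨Nat.mul_pos hN hM1, hT, hST, hsp⟩
    have hpc : ∀ m, ∑ t ∈ S, ‖D (bb a N mu m) (N * M) t‖ ^ 2 ≤
        |C₀| * (T ^ (ε / 2) * (((N : ℝ) * M) ^ 2 + S.card * (N * M))) := by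
      intro m
      have h1 := hC₀ (bb a N mu m) (bb_norm ha N mu m) (by
        intro k hk
        unfold bb
        rw [if_neg]
        rintro ⟨h3, h4, h5, h6⟩
        apply hk
        have h7 := (hmu (k / m) h4).2.2
        rw [h6, Nat.mul_div_cancel' h3] at h7
        exact h7) (N * M) T S hS2
      push_cast at h1
      refine h1.trans ?_
      exact mul_le_mul_of_nonneg_right (le_abs_self _) (by positivity)
    have hM1' : (1 : ℝ) ≤ M := by exact_mod_cast hM1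
    have hM4 : (M : ℝ) ^ 4 ≤ K ^ 4 * T ^ (ε / 2) := by
      have h1 : (N : ℝ) ^ η ≤ T ^ (4 * η) := by
        have h2 : (N : ℝ) ^ η ≤ (T ^ 4) ^ η := Real.rpow_le_rpow (by positivity) hcase.le hη0.le
        rw [← Real.rpow_natCast T 4, ← Real.rpow_mul hT0.le] at h2
        push_cast at h2
        exact h2
      have h2 : (M : ℝ) ≤ K * T ^ (4 * η) := hMle.trans (mul_le_mul_of_nonneg_left h1 (by linarith))
      calc (M : ℝ) ^ 4 ≤ (K * T ^ (4 * η)) ^ 4 := pow_le_pow_left₀ (by positivity) h2 4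
        _ = K ^ 4 * (T ^ (4 * η)) ^ 4 := by ring
        _ = K ^ 4 * T ^ (ε / 2) := by
          rw [← Real.rpow_natCast (T ^ (4 * η)) 4, ← Real.rpow_mul hT0.le]
          congr 2
          rw [hη]
          push_cast
          ring
    calc ∑ t ∈ S, ‖D a N t‖ ^ 2 ≤ ∑ t ∈ S, (M * ∑ m ∈ Icc 1 M, ‖D (bb a N mu m) (N * M) t‖ ^ 2) :=
          sum_le_sum fun t _ => dil_sq a N M mu hmu' t
      _ = M * ∑ m ∈ Icc 1 M, ∑ t ∈ S, ‖D (bb a N mu m) (N * M) t‖ ^ 2 := by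
          rw [← mul_sum, sum_comm]
      _ ≤ M * ∑ m ∈ Icc 1 M, |C₀| * (T ^ (ε / 2) * (((N : ℝ) * M) ^ 2 + S.card * (N * M))) := by
          apply mul_le_mul_of_nonneg_left _ (by positivity)
          exact sum_le_sum fun m _ => hpc m
      _ = |C₀| * T ^ (ε / 2) * ((M : ℝ) ^ 4 * (N : ℝ) ^ 2 + M ^ 3 * (S.card * N)) := by
          rw [sum_const, Nat.card_Icc, nsmul_eq_mul, Nat.add_sub_cancel]
          ring
      _ ≤ |C₀| * T ^ (ε / 2) * ((M : ℝ) ^ 4 * (N : ℝ) ^ 2 + M ^ 4 * (S.card * N)) := by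
          apply mul_le_mul_of_nonneg_left _ (by positivity)
          have h1 : (M : ℝ) ^ 3 ≤ M ^ 4 := pow_le_pow_right₀ hM1' (by norm_num)
          have h2 : 0 ≤ (S.card : ℝ) * N := by positivity
          nlinarith
      _ = |C₀| * T ^ (ε / 2) * ((N : ℝ) ^ 2 + S.card * N) * (M : ℝ) ^ 4 := by ring
      _ ≤ |C₀| * T ^ (ε / 2) * ((N : ℝ) ^ 2 + S.card * N) * (K ^ 4 * T ^ (ε / 2)) :=
          mul_le_mul_of_nonneg_left hM4 (by positivity)
      _ = K ^ 4 * |C₀| * ((T ^ (ε / 2) * T ^ (ε / 2)) * ((N : ℝ) ^ 2 + S.card * N)) := by ring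
      _ = K ^ 4 * |C₀| * (T ^ ε * ((N : ℝ) ^ 2 + S.card * N)) := by
          rw [← Real.rpow_add hT0]
          congr 3
          ring_nf
      _ ≤ _ := by
          have : 0 ≤ C₁ * (T ^ ε * ((N : ℝ) ^ 2 + S.card * N)) := by positivity
          linarith

end Pool.Agent.Q144.SS
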