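import Pool.Agent.Q144.SS.Trans

/-!
# Large values: from coefficients in the disc to sets of integers
-/

set_option autoImplicit false

namespace Pool.Agent.Q144.SS

open Finset

lemma D_sum {ι : Type*} (s : Finset ι) (f : ι → ℕ → ℂ) (N : ℕ) (t : ℝ) :
    D (fun n => ∑ i ∈ s, f i n) N t = ∑ i ∈ s, D (f i) N t := by
  unfold D
  rw [sum_comm]
  exact sum_congr rfl fun n _ => by rw [sum_mul]

lemma D_smul (c : ℂ) (f : ℕ → ℂ) (N : ℕ) (t : ℝ) : D (fun n => c * f n) N t = c * D f N t := by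
  unfold D
  rw [mul_sum]
  exact sum_congr rfl fun n _ => by rw [mul_assoc]

lemma D_add (f g : ℕ → ℂ) (N : ℕ) (t : ℝ) : D (fun n => f n + g n) N t = D f N t + D g N t := by
  unfold D
  rw [← sum_add_distrib]
  exact sum_congr rfl fun n _ => by rw [add_mul]

lemma D_small (f : ℕ → ℂ) (N : ℕ) (t δ : ℝ) (h : ∀ n, ‖f n‖ ≤ δ) : ‖D f N t‖ ≤ N * δ := by
  unfold D
  refine (norm_sum_le _ _).trans ?_
  calc ∑ n ∈ Icc 1 N, ‖f n * (n : ℂ) ^ (-((t : ℂ) * Complex.I))‖ ≤ ∑ n ∈ Icc 1 N, δ := by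
        apply sum_le_sum
        intro n hn
        rw [norm_mul, ph_norm n (mem_Icc.1 hn).1, mul_one]
        exact h n
    _ = N * δ := by simp

/-- the level sets -/
def lev (b : ℕ → ℝ) (J j : ℕ) : Set ℕ := {n | (j : ℝ) ≤ J * b n}

lemma lev_sum (b : ℕ → ℝ) (h0 : ∀ n, 0 ≤ b n) (h1 : ∀ n, b n ≤ 1) (J : ℕ) (hJ : 1 ≤ J) (n : ℕ) :
    ‖((b n : ℝ) : ℂ) - (1 / (J : ℂ)) * ∑ j ∈ Icc 1 J, ind (lev b J j) n‖ ≤ 1 / J := by
  have hJ0 : (0 : ℝ) < J := by exact_mod_cast hJ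
  have e : ∑ j ∈ Icc 1 J, ind (lev b J j) n = ((⌊J * b n⌋₊ : ℕ) : ℂ) := by
    have h2 : ∀ j ∈ Icc 1 J, ind (lev b J j) n = if j ≤ ⌊J * b n⌋₊ then 1 else 0 := by
      intro j _
      unfold ind
      by_cases h3 : (j : ℝ) ≤ J * b n
      · rw [Set.indicator_of_mem (show n ∈ lev b J j from h3), if_pos (Nat.le_floor h3)]
        rfl
      · rw [Set.indicator_of_notMem (show n ∉ lev b J j from h3), if_neg]
        intro h4
        apply h3
        exact le_trans (by exact_mod_cast h4) (Nat.floor_le (mul_nonneg hJ0.le (h0 n)))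
    rw [sum_congr rfl h2, sum_boole]
    have h3 : (Icc 1 J).filter (fun j => j ≤ ⌊J * b n⌋₊) = Icc 1 ⌊J * b n⌋₊ := by
      have h4 : ⌊J * b n⌋₊ ≤ J := by
        apply Nat.floor_le_of_le
        nlinarith [h1 n]
      ext j
      rw [mem_filter, mem_Icc, mem_Icc]
      omega
    rw [h3, Nat.card_Icc, Nat.add_sub_cancel]
  rw [e]
  have h2 : ((b n : ℝ) : ℂ) - (1 / (J : ℂ)) * ((⌊J * b n⌋₊ : ℕ) : ℂ) = ((b n - (1 / J) * (⌊J * b n⌋₊ : ℕ) : ℝ) : ℂ) := by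
    push_cast; ring
  rw [h2, Complex.norm_real, Real.norm_eq_abs]
  have h3 := Nat.floor_le (mul_nonneg hJ0.le (h0 n))
  have h4 := Nat.lt_floor_add_one (J * b n)
  have h5 : b n - (1 / J) * (⌊J * b n⌋₊ : ℕ) = (J * b n - (⌊J * b n⌋₊ : ℕ)) / J := by field_simp
  rw [h5, abs_of_nonneg (div_nonneg (by linarith) hJ0.le)]
  apply div_le_div_of_nonneg_right _ hJ0.le
  linarith

/-- coefficients in `[0, 1]` -/
lemma D_real (b : ℕ → ℝ) (h0 : ∀ n, 0 ≤ b n) (h1 : ∀ n, b n ≤ 1) (N : ℕ) (hN : 1 ≤ N) (t : ℝ) :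
    ‖D (fun n => (b n : ℂ)) N t‖ ^ 2 ≤ 2 * ((1 / N) * ∑ j ∈ Icc 1 N, ‖D (ind (lev b N j)) N t‖ ^ 2) + 2 := by
  have hN0 : (0 : ℝ) < N := by exact_mod_cast hN
  have e : (fun n => (b n : ℂ)) = fun n => ((1 / (N : ℂ)) * ∑ j ∈ Icc 1 N, ind (lev b N j) n) +
      ((b n : ℂ) - (1 / (N : ℂ)) * ∑ j ∈ Icc 1 N, ind (lev b N j) n) := by
    funext n; ring
  have h2 : D (fun n => (b n : ℂ)) N t = (1 / (N : ℂ)) * ∑ j ∈ Icc 1 N, D (ind (lev b N j)) N t +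
      D (fun n => (b n : ℂ) - (1 / (N : ℂ)) * ∑ j ∈ Icc 1 N, ind (lev b N j) n) N t := by
    conv_lhs => rw [e]
    rw [D_add, D_smul, D_sum]
  have h3 : ‖D (fun n => (b n : ℂ) - (1 / (N : ℂ)) * ∑ j ∈ Icc 1 N, ind (lev b N j) n) N t‖ ≤ 1 := by
    refine (D_small _ N t (1 / N) fun n => lev_sum b h0 h1 N hN n).trans (le_of_eq ?_)
    field_simp
  have h4 : ‖(1 / (N : ℂ)) * ∑ j ∈ Icc 1 N, D (ind (lev b N j)) N t‖ ^ 2 ≤
      (1 / N) * ∑ j ∈ Icc 1 N, ‖D (ind (lev b N j)) N t‖ ^ 2 := by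
    have h5 : ‖(1 / (N : ℂ)) * ∑ j ∈ Icc 1 N, D (ind (lev b N j)) N t‖ ≤
        (1 / N) * ∑ j ∈ Icc 1 N, ‖D (ind (lev b N j)) N t‖ := by
      rw [norm_mul, norm_div, norm_one, Complex.norm_natCast]
      exact mul_le_mul_of_nonneg_left (norm_sum_le _ _) (by positivity)
    have h6 := sq_sum_le_card_mul_sum_sq (s := Icc 1 N) (f := fun j => ‖D (ind (lev b N j)) N t‖)
    rw [Nat.card_Icc, Nat.add_sub_cancel] at h6
    calc _ ≤ ((1 / N) * ∑ j ∈ Icc 1 N, ‖D (ind (lev b N j)) N t‖) ^ 2 := pow_le_pow_left₀ (norm_nonneg _) h5 2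
      _ = (1 / (N : ℝ)) ^ 2 * (∑ j ∈ Icc 1 N, ‖D (ind (lev b N j)) N t‖) ^ 2 := by ring
      _ ≤ (1 / (N : ℝ)) ^ 2 * (N * ∑ j ∈ Icc 1 N, ‖D (ind (lev b N j)) N t‖ ^ 2) :=
          mul_le_mul_of_nonneg_left h6 (by positivity)
      _ = _ := by field_simp
  rw [h2]
  have h5 := norm_add_le ((1 / (N : ℂ)) * ∑ j ∈ Icc 1 N, D (ind (lev b N j)) N t)
    (D (fun n => (b n : ℂ) - (1 / (N : ℂ)) * ∑ j ∈ Icc 1 N, ind (lev b N j) n) N t)
  set x := ‖(1 / (N : ℂ)) * ∑ j ∈ Icc 1 N, D (ind (lev b N j)) N t‖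
  set y := ‖D (fun n => (b n : ℂ) - (1 / (N : ℂ)) * ∑ j ∈ Icc 1 N, ind (lev b N j) n) N t‖
  have hx : 0 ≤ x := norm_nonneg _
  have hy : 0 ≤ y := norm_nonneg _
  have h6 := pow_le_pow_left₀ (norm_nonneg _) h5 2
  have h7 : (x + y) ^ 2 ≤ 2 * x ^ 2 + 2 * y ^ 2 := by nlinarith [sq_nonneg (x - y)]
  have h8 : y ^ 2 ≤ 1 := by nlinarith
  linarith

/-- the mean square bound for the subsets of `E` -/
def MS1 (E : Set ℕ) : Prop := ∀ ε : ℝ, 0 < ε → ∃ C : ℝ, ∀ A : Set ℕ, A ⊆ E → MeanSquares ε C (ind A)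

lemma real_MS {E : Set ℕ} {ε C : ℝ} (hε : 0 < ε) (h : ∀ A : Set ℕ, A ⊆ E → MeanSquares ε C (ind A))
    (b : ℕ → ℝ) (h0 : ∀ n, 0 ≤ b n) (h1 : ∀ n, b n ≤ 1) (hb : ∀ n, n ∉ E → b n = 0) :
    MeanSquares ε (2 * |C| + 2) (fun n => (b n : ℂ)) := by
  intro N T S hS
  have hN := hS.1
  have hT := hS.2.1
  have hN0 : (0 : ℝ) < N := by exact_mod_cast hN
  have hN1 : (1 : ℝ) ≤ N := by exact_mod_cast hN
  have hc0 : (0 : ℝ) ≤ S.card := Nat.cast_nonneg _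
  have hTe : 1 ≤ T ^ ε := Real.one_le_rpow hT hε.le
  have hj : ∀ j ∈ Icc 1 N, ∑ t ∈ S, ‖D (ind (lev b N j)) N t‖ ^ 2 ≤ |C| * (T ^ ε * ((N : ℝ) ^ 2 + S.card * N)) := by
    intro j hj
    refine (h (lev b N j) ?_ N T S hS).trans (mul_le_mul_of_nonneg_right (le_abs_self C) (by positivity))
    intro n hn
    by_contra hnE
    have h2 : (j : ℝ) ≤ N * b n := hn
    rw [hb n hnE, mul_zero] at h2
    have h3 : (1 : ℝ) ≤ j := by exact_mod_cast (mem_Icc.1 hj).1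
    linarith
  calc ∑ t ∈ S, ‖D (fun n => (b n : ℂ)) N t‖ ^ 2
      ≤ ∑ t ∈ S, (2 * ((1 / N) * ∑ j ∈ Icc 1 N, ‖D (ind (lev b N j)) N t‖ ^ 2) + 2) :=
        sum_le_sum fun t _ => D_real b h0 h1 N hN t
    _ = 2 * ((1 / N) * ∑ j ∈ Icc 1 N, ∑ t ∈ S, ‖D (ind (lev b N j)) N t‖ ^ 2) + 2 * S.card := by
        rw [sum_add_distrib, ← mul_sum, ← mul_sum, sum_comm, sum_const, nsmul_eq_mul]
        ring
    _ ≤ 2 * ((1 / N) * ∑ j ∈ Icc 1 N, |C| * (T ^ ε * ((N : ℝ) ^ 2 + S.card * N))) + 2 * S.card := by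
        have := mul_le_mul_of_nonneg_left (sum_le_sum hj) (show (0 : ℝ) ≤ 1 / N by positivity)
        linarith
    _ = 2 * |C| * (T ^ ε * ((N : ℝ) ^ 2 + S.card * N)) + 2 * S.card := by
        rw [sum_const, Nat.card_Icc, nsmul_eq_mul, Nat.add_sub_cancel]
        field_simp
    _ ≤ _ := by
        have h2 : (S.card : ℝ) ≤ T ^ ε * ((N : ℝ) ^ 2 + S.card * N) := by
          calc (S.card : ℝ) = 1 * (0 + S.card * 1) := by ring
            _ ≤ T ^ ε * ((N : ℝ) ^ 2 + S.card * N) := by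
              apply mul_le_mul hTe _ (by positivity) (by positivity)
              apply add_le_add (by positivity)
              exact mul_le_mul_of_nonneg_left hN1 hc0
        linarith

theorem E_of_one {E : Set ℕ} (h : MS1 E) : MSE E := by
  intro ε hε
  obtain ⟨C, hC⟩ := h ε hε
  refine ⟨16 * (2 * |C| + 2), fun a ha haE N T S hS => ?_⟩
  -- the four parts
  have hre : ∀ n, |(a n).re| ≤ 1 := fun n => (Complex.abs_re_le_norm _).trans (ha n)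
  have him : ∀ n, |(a n).im| ≤ 1 := fun n => (Complex.abs_im_le_norm _).trans (ha n)
  have part : ∀ g : ℕ → ℝ, (∀ n, |g n| ≤ 1) → (∀ n, n ∉ E → g n = 0) →
      ∑ t ∈ S, ‖D (fun n => ((max (g n) 0 : ℝ) : ℂ)) N t‖ ^ 2 ≤ (2 * |C| + 2) * (T ^ ε * ((N : ℝ) ^ 2 + S.card * N)) := by
    intro g hg hgE
    exact real_MS hε hC (fun n => max (g n) 0) (fun n => le_max_right _ _)
      (fun n => max_le ((le_abs_self _).trans (hg n)) zero_le_one) (fun n hn => by rw [hgE n hn]; simp) N T S hS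
  have p1 := part (fun n => (a n).re) hre (fun n hn => by rw [haE n hn]; simp)
  have p2 := part (fun n => -(a n).re) (fun n => by rw [abs_neg]; exact hre n) (fun n hn => by rw [haE n hn]; simp)
  have p3 := part (fun n => (a n).im) him (fun n hn => by rw [haE n hn]; simp)
  have p4 := part (fun n => -(a n).im) (fun n => by rw [abs_neg]; exact him n) (fun n hn => by rw [haE n hn]; simp)
  have e : ∀ t, D a N t = (D (fun n => ((max ((a n).re) 0 : ℝ) : ℂ)) N t + (-1) * D (fun n => ((max (-(a n).re) 0 : ℝ) : ℂ)) N t) +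
      (Complex.I * D (fun n => ((max ((a n).im) 0 : ℝ) : ℂ)) N t + (-Complex.I) * D (fun n => ((max (-(a n).im) 0 : ℝ) : ℂ)) N t) := by
    intro t
    rw [← D_smul, ← D_smul, ← D_smul, ← D_add, ← D_add, ← D_add]
    apply D_congr
    intro n _ _
    have h1 : ∀ x : ℝ, max x 0 - max (-x) 0 = x := by
      intro x
      rcases le_total 0 x with h | h
      · rw [max_eq_left h, max_eq_right (by linarith)]; ring
      · rw [max_eq_right h, max_eq_left (by linarith)]; ring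
    apply Complex.ext
    · simp
      linarith [h1 (a n).re]
    · simp
      linarith [h1 (a n).im]
  have hsq : ∀ t ∈ S, ‖D a N t‖ ^ 2 ≤ 4 * (‖D (fun n => ((max ((a n).re) 0 : ℝ) : ℂ)) N t‖ ^ 2 +
      ‖D (fun n => ((max (-(a n).re) 0 : ℝ) : ℂ)) N t‖ ^ 2 + ‖D (fun n => ((max ((a n).im) 0 : ℝ) : ℂ)) N t‖ ^ 2 +
      ‖D (fun n => ((max (-(a n).im) 0 : ℝ) : ℂ)) N t‖ ^ 2) := by
    intro t _
    have h1 : ‖D a N t‖ ≤ ‖D (fun n => ((max ((a n).re) 0 : ℝ) : ℂ)) N t‖ + ‖D (fun n => ((max (-(a n).re) 0 : ℝ) : ℂ)) N t‖ +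
        ‖D (fun n => ((max ((a n).im) 0 : ℝ) : ℂ)) N t‖ + ‖D (fun n => ((max (-(a n).im) 0 : ℝ) : ℂ)) N t‖ := by
      rw [e t]
      refine (norm_add_le _ _).trans ?_
      refine (add_le_add (norm_add_le _ _) (norm_add_le _ _)).trans (le_of_eq ?_)
      rw [norm_mul, norm_mul, norm_mul, norm_neg, norm_neg, norm_one, Complex.norm_I]
      ring
    refine (pow_le_pow_left₀ (norm_nonneg _) h1 2).trans ?_
    generalize ‖D (fun n => ((max ((a n).re) 0 : ℝ) : ℂ)) N t‖ = x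
    generalize ‖D (fun n => ((max (-(a n).re) 0 : ℝ) : ℂ)) N t‖ = y
    generalize ‖D (fun n => ((max ((a n).im) 0 : ℝ) : ℂ)) N t‖ = z
    generalize ‖D (fun n => ((max (-(a n).im) 0 : ℝ) : ℂ)) N t‖ = w
    nlinarith [sq_nonneg (x - y), sq_nonneg (x - z), sq_nonneg (x - w), sq_nonneg (y - z), sq_nonneg (y - w), sq_nonneg (z - w)]
  refine (sum_le_sum hsq).trans ?_
  rw [← mul_sum, sum_add_distrib, sum_add_distrib, sum_add_distrib]
  linarith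

/-- **Q1 is equivalent to Q1 for the subsets of a syndetic set** -/
theorem main {E : Set ℕ} (hE : Syndetic E) :
    Q1 ↔ ∀ ε : ℝ, 0 < ε → ∃ C : ℝ, ∀ A : Set ℕ, A ⊆ E → LargeValues ε C (ind A) := by
  constructor
  · intro h ε hε
    obtain ⟨C, hC⟩ := h ε hε
    exact ⟨C, fun A _ => hC _ (ind_norm A)⟩
  · intro h
    have h1 : MS1 E := by
      intro ε hε
      obtain ⟨C, hC⟩ := ms_of_lv (B := {a | ∃ A : Set ℕ, A ⊆ E ∧ a = ind A}) (by
        rintro _ ⟨A, _, rfl⟩ n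
        exact ind_norm A n) (by
        intro ε hε
        obtain ⟨C, hC⟩ := h ε hε
        refine ⟨C, ?_⟩
        rintro _ ⟨A, hA, rfl⟩
        exact hC A hA) ε hε
      exact ⟨C, fun A hA => hC _ ⟨A, hA, rfl⟩⟩
    have h2 := all_of_E hE (E_of_one h1)
    rw [q1_iff]
    intro ε hε
    obtain ⟨C, hC⟩ := h2 ε hε
    exact ⟨C, fun a ha => hC a ha fun n hn => absurd (Set.mem_univ n) hn⟩

end Pool.Agent.Q144.SS
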